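import Pool.Agent.Work.MP_3e8c7a_hp.Interface
import Pool.Agent.Work.MP_3e8c7a_h.B_GAP

/-! Block GAPP: the gap lemma with polynomial constants. -/

set_option autoImplicit false

namespace Pool.HP

open Module Pool.Agent.MP3e8c7a Pool.EH

/-- The gap lemma with explicit constants (proof copied from `p_GAP`). -/
theorem GAPP_core (hTRF : Stmt_TRF) {b C C₂ : ℝ} (hb : 1 ≤ b) (hC : 1 ≤ C) (hC₂ : 1 ≤ C₂)
    (K₁ K₂ : ℝ) (hK₁ : K₁ = 2 * b * C * C₂) (hK₂ : K₂ = 2 * K₁ ^ 2 * C ^ 2 * C₂ ^ 4)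
    (V : Type) [AddCommGroup V] [Module ℝ V] [FiniteDimensional ℝ V] (p r : Seminorm ℝ V) (k : ℕ)
    (s : ℝ) (hp : Def p) (hr : Def r) (H : Hyp b k p r) (F Y Y' E : Submodule ℝ V)
    (hFY : finrank ℝ F ≤ finrank ℝ Y) (hFY' : finrank ℝ F ≤ finrank ℝ Y')
    (hFE : finrank ℝ F + finrank ℝ E = k)
    (h1 : ∀ w ∈ F, ∀ y ∈ Y, p w + p y ≤ C₂ * p (w + y) ∧ r w + r y ≤ C₂ * r (w + y))
    (h2 : ∀ w ∈ F, ∀ y ∈ Y', p w + p y ≤ C₂ * p (w + y) ∧ r w + r y ≤ C₂ * r (w + y))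
    (h3 : ∀ z ∈ F ⊔ Y, ∀ x ∈ E, p z + p x ≤ C₂ * p (z + x) ∧ r z + r x ≤ C₂ * r (z + x))
    (h4 : ∀ z ∈ F ⊔ Y', ∀ x ∈ E, p z + p x ≤ C₂ * p (z + x) ∧ r z + r x ≤ C₂ * r (z + x))
    (hEp : Eu C (p.comp E.subtype)) (hEr : Eu C (r.comp E.subtype))
    (hYp : Eu C (p.comp Y.subtype)) (hYr : Eu C (r.comp Y.subtype))
    (hYp' : Eu C (p.comp Y'.subtype)) (hs : 0 < s)
    (hR : ∀ y ∈ Y, 2 * K₂ * C ^ 2 * s * p y ≤ r y) (hR' : ∀ y ∈ Y', r y ≤ s * p y) :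
    Eu (K₁ * (2 * K₂ * C + 1)) (p.comp F.subtype) ∧
      Eu (K₁ * (2 * K₂ * C + 1)) (r.comp F.subtype) := by
  have hC0 : 0 < C := by linarith
  have hb0 : 0 < b := by linarith
  have hC₂0 : 0 < C₂ := by linarith
  have hK₁1 : 1 ≤ K₁ := by
    rw [hK₁]
    have e1 : 1 ≤ b * C := one_le_mul_of_one_le_of_one_le hb hC
    have e2 : 1 ≤ b * C * C₂ := one_le_mul_of_one_le_of_one_le e1 hC₂
    linarith
  have hK₂1 : 1 ≤ K₂ := by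
    rw [hK₂]
    have e1 : 1 ≤ K₁ ^ 2 * C ^ 2 := one_le_mul_of_one_le_of_one_le (one_le_pow₀ hK₁1) (one_le_pow₀ hC)
    have e2 : 1 ≤ K₁ ^ 2 * C ^ 2 * C₂ ^ 4 := one_le_mul_of_one_le_of_one_le e1 (one_le_pow₀ hC₂)
    linarith
  have hK₂0 : 0 < K₂ := by linarith
  have hKC : 1 ≤ K₂ * C := one_le_mul_of_one_le_of_one_le hK₂1 hC
  have hA : 1 ≤ 2 * K₂ * C + 1 := by linarith
  obtain ⟨D₀, hD₀, hE₀⟩ := GAP_exists (r.comp F.subtype) (hr.comp F.subtype Subtype.val_injective)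
  have hit : ∀ n : ℕ, Eu (2 * K₂ * C + D₀ / 2 ^ n) (r.comp F.subtype) := by
    intro n
    induction n with
    | zero => exact hE₀.mono (by rw [pow_zero, div_one]; linarith)
    | succ n ih =>
      have e0 : 0 ≤ D₀ / 2 ^ n := by positivity
      have e := GAP_step hTRF hb hC hC₂ hp hr H hFY hFY' hFE h1 h2 h3 h4 hEp hEr hYp hYr hYp' hs K₁ K₂ hK₁ hK₂
        hR hR' (D := 2 * K₂ * C + D₀ / 2 ^ n) (by linarith) ih
      have e1 : K₂ * C + (2 * K₂ * C + D₀ / 2 ^ n) / 2 = 2 * K₂ * C + D₀ / 2 ^ (n + 1) := by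
        rw [pow_succ]
        field_simp
        ring
      rwa [e1] at e
  obtain ⟨n, hn⟩ := pow_unbounded_of_one_lt D₀ (one_lt_two)
  have hr1 : Eu (2 * K₂ * C + 1) (r.comp F.subtype) := by
    refine (hit n).mono ?_
    have e1 : D₀ / 2 ^ n ≤ 1 := by
      rw [div_le_one (by positivity)]
      exact hn.le
    linarith
  refine ⟨?_, hr1.mono ?_⟩
  · have e := hTRF V F r p k b C C₂ (2 * K₂ * C + 1) F.subtype E hr hp (H.symm hb0) hb hC hC₂ hA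
      Subtype.val_injective hFE (fun w x hx => (h3 _ (Submodule.mem_sup_left w.2) x hx).2) hEr hr1
    rw [hK₁]
    exact e
  · calc 2 * K₂ * C + 1 = 1 * (2 * K₂ * C + 1) := by ring
      _ ≤ K₁ * (2 * K₂ * C + 1) := mul_le_mul_of_nonneg_right hK₁1 (by linarith)

/-- The constants are polynomial. -/
theorem GAPP_pb (b : ℝ) (hb : 1 ≤ b) : ∃ K : ℕ, 1 ≤ K ∧ ∀ D : ℝ, 1 ≤ D →
    2 * (2 * (2 * b * D * D) ^ 2 * D ^ 2 * D ^ 4) * D ^ 2 ≤ Pw K D ∧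
    (2 * b * D * D) * (2 * (2 * (2 * b * D * D) ^ 2 * D ^ 2 * D ^ 4) * D + 1) ≤ Pw K D := by
  have hb0 : 0 < b := by linarith
  have h1 : PB fun D => (16 * b ^ 2 + 32 * b ^ 3 + 2 * b) * D ^ 13 :=
    (PB.const _).mul (PB.id.pow (fun D hD => by linarith) 13) fun D hD => by positivity
  obtain ⟨K, hK, h2⟩ := h1
  refine ⟨K, hK, fun D hD => ?_⟩
  have h3 := h2 D hD
  have hD0 : 0 < D := by linarith
  have h12 : D ^ 12 ≤ D ^ 13 := pow_le_pow_right₀ hD (by norm_num)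
  have h2' : D ^ 2 ≤ D ^ 13 := pow_le_pow_right₀ hD (by norm_num)
  constructor
  · refine le_trans ?_ h3
    have e1 : 2 * (2 * (2 * b * D * D) ^ 2 * D ^ 2 * D ^ 4) * D ^ 2 = 16 * b ^ 2 * D ^ 12 := by ring
    rw [e1]
    have e2 : 16 * b ^ 2 * D ^ 12 ≤ 16 * b ^ 2 * D ^ 13 :=
      mul_le_mul_of_nonneg_left h12 (by positivity)
    have e3 : 0 ≤ (32 * b ^ 3 + 2 * b) * D ^ 13 := by positivity
    have e4 : (16 * b ^ 2 + 32 * b ^ 3 + 2 * b) * D ^ 13 =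
        16 * b ^ 2 * D ^ 13 + (32 * b ^ 3 + 2 * b) * D ^ 13 := by ring
    linarith
  · refine le_trans ?_ h3
    have e1 : (2 * b * D * D) * (2 * (2 * (2 * b * D * D) ^ 2 * D ^ 2 * D ^ 4) * D + 1) =
        32 * b ^ 3 * D ^ 13 + 2 * b * D ^ 2 := by ring
    rw [e1]
    have e2 : 2 * b * D ^ 2 ≤ 2 * b * D ^ 13 := mul_le_mul_of_nonneg_left h2' (by positivity)
    have e3 : 0 ≤ 16 * b ^ 2 * D ^ 13 := by positivity
    have e4 : (16 * b ^ 2 + 32 * b ^ 3 + 2 * b) * D ^ 13 =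
        16 * b ^ 2 * D ^ 13 + (32 * b ^ 3 * D ^ 13 + 2 * b * D ^ 13) := by ring
    linarith

theorem p_GAPP (hTRF : Pool.EH.Stmt_TRF) : Stmt_GAPP := by
  intro b hb
  obtain ⟨K, hK, hKD⟩ := GAPP_pb b hb
  refine ⟨K, hK, ?_⟩
  intro D hD V _ _ _ p r k s hp hr H F Y Y' E hFY hFY' hFE h1 h2 h3 h4 hEp hEr hYp hYr hYp' hs hR hR'
  obtain ⟨g1, g2⟩ := hKD D hD
  obtain ⟨f1, f2⟩ := GAPP_core hTRF hb hD hD _ _ rfl rfl V p r k s hp hr H F Y Y' E hFY hFY' hFE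
    h1 h2 h3 h4 hEp hEr hYp hYr hYp' hs (fun y hy => by
      refine le_trans ?_ (hR y hy)
      have e1 : 0 ≤ p y := apply_nonneg _ _
      exact mul_le_mul_of_nonneg_right (mul_le_mul_of_nonneg_right g1 hs.le) e1) hR'
  exact ⟨f1.mono g2, f2.mono g2⟩

end Pool.HP
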