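import Pool.Agent.Work.MP_3e8c7a_hp.Interface
import Pool.Agent.Work.MP_3e8c7a_h.B_JOI

/-!
# MP_3e8c7a_an, THEOREM H with polynomial constants: block JOIP
-/

set_option autoImplicit false

namespace Pool.HP

open Module Pool.Agent.MP3e8c7a Pool.EH

theorem JOIP_main (hLIF : Pool.EH.Stmt_LIF) (C Λ : ℝ) (hC : 1 ≤ C) (hΛ : 1 ≤ Λ)
    (A B : ℝ) (hA : A = Λ * (2 * C + 3) + (2 * C + 4))
    (hB : B = Λ * (2 * C + 3) + C * C * (2 * C + 4)) :
    ∀ (V : Type) [AddCommGroup V] [Module ℝ V] [FiniteDimensional ℝ V]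
  (p r : Seminorm ℝ V) (n : ℕ) (X : Submodule ℝ V), Def p → Def r → finrank ℝ X + n = finrank ℝ V → Loc C (n * n + n + 1) p → Loc C (n * n + n + 1) r →
  (∀ x ∈ X, p x ≤ Λ * r x ∧ r x ≤ Λ * p x) → Iso (A * B) p r := by
  have hA1 : 1 ≤ A := by
    rw [hA]
    nlinarith [mul_nonneg (by linarith : (0 : ℝ) ≤ Λ) (by linarith : (0 : ℝ) ≤ 2 * C + 3)]
  have hB1 : 1 ≤ B := by
    have h1 : 0 ≤ C * C * (2 * C + 4) := by positivity
    rw [hB]
    nlinarith [mul_le_mul hΛ (by linarith : (1 : ℝ) ≤ 2 * C + 3) zero_le_one (by linarith : (0 : ℝ) ≤ Λ)]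
  intro V _ _ _ p r n X hp hr hX hLp hLr hcmp
  obtain ⟨P, hP1, hP2, hP3⟩ := hLIF V p n C X hp hC hX hLp
  obtain ⟨Q, hQ1, hQ2, hQ3⟩ := hLIF V r n C X hr hC hX hLr
  have kP := JOI_ker n X P hP1 hP2 hX
  have kQ := JOI_ker n X Q hQ1 hQ2 hX
  have hn : n ≤ n * n + n + 1 := by nlinarith [Nat.zero_le (n * n)]
  have eP : Eu C (p.comp (LinearMap.ker P).subtype) := hLp _ (by rw [kP]; exact hn)
  have eQ : Eu C (r.comp (LinearMap.ker Q).subtype) := hLr _ (by rw [kQ]; exact hn)
  have dP : Def (p.comp (LinearMap.ker P).subtype) := by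
    intro x hx
    exact Subtype.ext (hp _ hx)
  have dQ : Def (r.comp (LinearMap.ker Q).subtype) := by
    intro x hx
    exact Subtype.ext (hr _ hx)
  obtain ⟨S, hS⟩ := Eu.iso dP dQ hC eP eQ (by rw [kP, kQ])
  have hPP : ∀ x, P (x - P x) = 0 := by
    intro x
    rw [map_sub, hP2 _ (hP1 x), sub_self]
  let R : V →ₗ[ℝ] LinearMap.ker P := (LinearMap.id - P).codRestrict (LinearMap.ker P)
    (fun x => by rw [LinearMap.mem_ker]; exact hPP x)
  have hR : ∀ x, ((R x : LinearMap.ker P) : V) = x - P x := fun x => rfl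
  let T : V →ₗ[ℝ] V := P + (LinearMap.ker Q).subtype ∘ₗ (S : LinearMap.ker P →ₗ[ℝ] LinearMap.ker Q) ∘ₗ R
  have hT : ∀ x, T x = P x + (S (R x) : V) := fun x => rfl
  have hS1 : ∀ x, p (x - P x) ≤ r (S (R x) : V) := fun x => (hS (R x)).1
  have hS2 : ∀ x, r (S (R x) : V) ≤ C * C * p (x - P x) := fun x => (hS (R x)).2
  have hpR : ∀ x, p (x - P x) ≤ (2 * C + 4) * p x := by
    intro x
    have h1 := map_sub_le_add p x (P x)
    have h2 := hP3 x
    nlinarith
  have hQT : ∀ x, Q (T x) = P x := by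
    intro x
    rw [hT, map_add, hQ2 _ (hP1 x)]
    have : Q (S (R x) : V) = 0 := (S (R x)).2
    rw [this, add_zero]
  have hC2 : 0 ≤ C * C := by positivity
  have up : ∀ x, r (T x) ≤ B * p x := by
    intro x
    have h1 := map_add_le_add r (P x) (S (R x) : V)
    rw [← hT] at h1
    have h2 := (hcmp _ (hP1 x)).2
    have h3 := mul_le_mul_of_nonneg_left (hP3 x) (by linarith : (0 : ℝ) ≤ Λ)
    have h4 := (hS2 x).trans (mul_le_mul_of_nonneg_left (hpR x) hC2)
    rw [hB]
    calc r (T x) ≤ Λ * ((2 * C + 3) * p x) + C * C * ((2 * C + 4) * p x) := by linarith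
      _ = _ := by ring
  have lo : ∀ x, p x ≤ A * r (T x) := by
    intro x
    have h1 : r (P x) ≤ (2 * C + 3) * r (T x) := by
      have := hQ3 (T x)
      rwa [hQT] at this
    have h2 : r (S (R x) : V) ≤ r (T x) + r (P x) := by
      have h := map_sub_le_add r (T x) (P x)
      have e : T x - P x = (S (R x) : V) := by rw [hT]; abel
      rwa [e] at h
    have h3 : p x ≤ p (P x) + p (x - P x) := by
      have h := map_add_le_add p (P x) (x - P x)
      have e : P x + (x - P x) = x := by abel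
      rwa [e] at h
    have h4 := (hcmp _ (hP1 x)).1
    have h5 := mul_le_mul_of_nonneg_left h1 (by linarith : (0 : ℝ) ≤ Λ)
    have h6 := hS1 x
    rw [hA]
    calc p x ≤ Λ * ((2 * C + 3) * r (T x)) + (r (T x) + (2 * C + 3) * r (T x)) := by linarith
      _ = _ := by ring
  have hinj : Function.Injective T := by
    rw [injective_iff_map_eq_zero]
    intro x hx
    have h := lo x
    rw [hx, map_zero, mul_zero] at h
    exact hp _ (le_antisymm h (apply_nonneg _ _))
  exact Iso.of_bounds (LinearEquiv.ofInjectiveEndo T hinj) (by linarith)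
    (fun x => by simpa using lo x) (fun x => by simpa using up x)

theorem p_JOIP (hLIF : Pool.EH.Stmt_LIF) : Stmt_JOIP := by
  have h2 : PB fun D => 2 * D := (PB.const 2).mul PB.id fun D hD => by linarith
  have h3 : PB fun D => D * (2 * D + 3) := PB.id.mul (h2.add (PB.const 3)) fun D hD => by linarith
  have h4 : PB fun D => 2 * D + 4 := h2.add (PB.const 4)
  have h5 : PB fun D => D * D := PB.id.mul PB.id fun D hD => by linarith
  have h6 : PB fun D => D * D * (2 * D + 4) := h5.mul h4 fun D hD => by linarith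
  have hA : PB fun D => D * (2 * D + 3) + (2 * D + 4) := h3.add h4
  have hB : PB fun D => D * (2 * D + 3) + D * D * (2 * D + 4) := h3.add h6
  obtain ⟨K, hK, h⟩ := hA.mul hB fun D hD => by
    have : (0 : ℝ) ≤ D := by linarith
    positivity
  refine ⟨K, hK, fun D hD => ?_⟩
  intro V _ _ _ p r n X hp hr hX hLp hLr hcmp
  exact (JOIP_main hLIF D D hD hD _ _ rfl rfl V p r n X hp hr hX hLp hLr hcmp).mono (h D hD)

end Pool.HP
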