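import Pool.Agent.Work.MP_3e8c7a_hp.Interface

/-! Block LARP of the table hpo_blocks (helper55) -/

set_option autoImplicit false

namespace Pool.HP

open Module Pool.Agent.MP3e8c7a Pool.EH

theorem p_LARP (hSCL : Stmt_SCLP) : Stmt_LARP := by
  obtain ⟨K₀, hK₀, h⟩ := hSCL 3
  refine ⟨K₀ + 4, by omega, ?_⟩
  intro D hD V _ _ _ N a hN hn ha hL
  have hD0 : 0 < D := by linarith
  have hbig : (4 * D) ^ 4 ≤ (finrank ℝ V : ℝ) := by
    have h1 : Pw 4 D ≤ Pw (K₀ + 4) D := Pw_mono (by norm_num) (by omega) hD le_rfl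
    have h2 : Pw 4 D = (4 * D) ^ 4 := by simp [Pw]
    rw [h2] at h1
    linarith
  have hD4 : D ^ 2 ≤ D ^ 4 := pow_le_pow_right₀ hD (by norm_num)
  have hn2 : 2 * D ^ 2 ≤ (finrank ℝ V : ℝ) := by
    have h1 : (4 * D) ^ 4 = 256 * D ^ 4 := by ring
    have h2 : 0 ≤ D ^ 4 := by positivity
    rw [h1] at hbig
    nlinarith
  have ha2 : (2 : ℝ) ≤ a := by
    have h1 : 2 * D ^ 2 ≤ D * a := hn2.trans ha
    have h2 : 2 * D ≤ (a : ℝ) := by
      by_contra hcon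
      push Not at hcon
      have h3 : D * (a : ℝ) < D * (2 * D) := mul_lt_mul_of_pos_left hcon hD0
      nlinarith
    linarith
  have ha2' : 2 ≤ a := by exact_mod_cast ha2
  have h5 := h D hD V N a hN ha2' hL
  have h6 : (finrank ℝ V : ℝ) ≤ (a : ℝ) ^ 3 := by
    have hn0 : (0 : ℝ) ≤ (finrank ℝ V : ℝ) := Nat.cast_nonneg _
    have h7 : (finrank ℝ V : ℝ) ^ 3 ≤ (D * a) ^ 3 := pow_le_pow_left₀ hn0 ha 3
    have hD3 : D ^ 3 ≤ (finrank ℝ V : ℝ) := by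
      have h1 : D ^ 3 ≤ D ^ 4 := pow_le_pow_right₀ hD (by norm_num)
      have h2 : (4 * D) ^ 4 = 256 * D ^ 4 := by ring
      have h3 : 0 ≤ D ^ 4 := by positivity
      rw [h2] at hbig
      nlinarith
    have h1n : (1 : ℝ) ≤ (finrank ℝ V : ℝ) := by
      have : (1 : ℝ) ≤ D ^ 3 := one_le_pow₀ hD
      linarith
    have h8 : D ^ 3 ≤ (finrank ℝ V : ℝ) ^ 2 := by nlinarith
    have h9 : D ^ 3 * (finrank ℝ V : ℝ) ≤ D ^ 3 * (a : ℝ) ^ 3 := by
      calc D ^ 3 * (finrank ℝ V : ℝ) ≤ (finrank ℝ V : ℝ) ^ 2 * (finrank ℝ V : ℝ) :=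
            mul_le_mul_of_nonneg_right h8 hn0
        _ = (finrank ℝ V : ℝ) ^ 3 := by ring
        _ ≤ (D * a) ^ 3 := h7
        _ = D ^ 3 * (a : ℝ) ^ 3 := by ring
    exact le_of_mul_le_mul_left h9 (by positivity)
  have h9 : finrank ℝ (⊤ : Submodule ℝ V) ≤ a ^ 3 := by
    rw [finrank_top]
    exact_mod_cast h6
  have h10 := (h5 ⊤ h9).comp (Submodule.topEquiv.symm.toLinearMap : V →ₗ[ℝ] (⊤ : Submodule ℝ V))
  have e : (N.comp (⊤ : Submodule ℝ V).subtype).comp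
      (Submodule.topEquiv.symm.toLinearMap : V →ₗ[ℝ] (⊤ : Submodule ℝ V)) = N := by
    ext x
    rfl
  rw [e] at h10
  exact h10.mono (Pw_mono hK₀ (by omega) hD le_rfl)

end Pool.HP
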