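import Pool.Agent.Work.MP_3e8c7a_hp.Interface
import Pool.Agent.Work.MP_3e8c7a_r.B_BAS

/-!
# MP_3e8c7a_an, THEOREM H with polynomial constants, block LOBP: small dimensions (Auerbach)
-/

set_option autoImplicit false

namespace Pool.HP

open Module Pool.Agent.MP3e8c7a Pool.EH
open scoped Matrix

/-- Auerbach basis for norms on `Fin n → ℝ`. -/
lemma LOBP_auer {n : ℕ} (N : Seminorm ℝ (Fin n → ℝ)) (h : ∀ v, N v = 0 → v = 0) (R : ℝ)
    (hR : ∀ v, ‖v‖ ≤ R * N v) (hN1 : ∀ v, N v ≤ ∑ i, |v i|) :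
    ∃ (b : Fin n → Fin n → ℝ) (c : Fin n → (Fin n → ℝ) →ₗ[ℝ] ℝ), (∀ i, N (b i) ≤ 1) ∧
      (∀ i x, |c i x| ≤ N x) ∧ ∀ x, x = ∑ i, c i x • b i := by
  have hcont : Continuous N := by
    refine Seminorm.continuous_of_le (q := Pool.RX.oneS n) ?_ (fun v => hN1 v)
    show Continuous fun v : Fin n → ℝ => ∑ i, |v i|
    fun_prop
  have hcomp : IsCompact {x : Fin n → ℝ | N x ≤ 1} := by
    apply Metric.isCompact_of_isClosed_isBounded
    · exact isClosed_le hcont continuous_const
    · rw [Metric.isBounded_iff_subset_closedBall 0]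
      refine ⟨|R|, fun x hx => ?_⟩
      rw [mem_closedBall_zero_iff]
      have hx' : N x ≤ 1 := hx
      have h0 : 0 ≤ N x := apply_nonneg N x
      calc ‖x‖ ≤ R * N x := hR x
        _ ≤ |R| * N x := mul_le_mul_of_nonneg_right (le_abs_self R) h0
        _ ≤ |R| * 1 := mul_le_mul_of_nonneg_left hx' (abs_nonneg R)
        _ = |R| := mul_one _
  have hS : IsCompact (Set.pi Set.univ (fun _ : Fin n => {x : Fin n → ℝ | N x ≤ 1})) :=
    isCompact_univ_pi (fun _ => hcomp)
  have hne : (Set.pi Set.univ (fun _ : Fin n => {x : Fin n → ℝ | N x ≤ 1})).Nonempty :=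
    ⟨fun _ => 0, fun i _ => by simp⟩
  have hdc : Continuous (fun V : Fin n → Fin n → ℝ => |(Matrix.of V).det|) := by
    refine continuous_abs.comp (Continuous.matrix_det ?_)
    exact continuous_id
  obtain ⟨V, hV, hmax⟩ := hS.exists_isMaxOn hne hdc.continuousOn
  have hV1 : ∀ i, N (V i) ≤ 1 := fun i => hV i (Set.mem_univ i)
  have hmax' : ∀ U : Fin n → Fin n → ℝ, (∀ i, N (U i) ≤ 1) →
      |(Matrix.of U).det| ≤ |(Matrix.of V).det| := fun U hU => hmax (fun i _ => hU i)
  -- the determinant is nonzero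
  have hdet : (Matrix.of V).det ≠ 0 := by
    have h1 := hmax' (fun i => Pi.single i (1 : ℝ)) (fun i => by
      refine (hN1 _).trans ?_
      rw [Finset.sum_eq_single i]
      · rw [Pi.single_eq_same, abs_one]
      · intro j _ hj
        rw [Pi.single_eq_of_ne hj, abs_zero]
      · intro hi
        exact absurd (Finset.mem_univ i) hi)
    have h2 : Matrix.of (fun i : Fin n => (Pi.single i (1 : ℝ) : Fin n → ℝ)) =
        (1 : Matrix (Fin n) (Fin n) ℝ) := by
      ext i j
      simp only [Matrix.of_apply, Matrix.one_apply, Pi.single_apply]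
      by_cases hij : i = j
      · subst hij; simp
      · rw [if_neg hij, if_neg (fun h => hij h.symm)]
    rw [h2, Matrix.det_one, abs_one] at h1
    intro h0
    rw [h0, abs_zero] at h1
    linarith
  set D := (Matrix.of V).det with hD
  refine ⟨V, fun i => D⁻¹ • (LinearMap.proj i ∘ₗ Matrix.cramer (Matrix.of V)ᵀ), hV1, ?_, ?_⟩
  · intro i x
    have key : ∀ y : Fin n → ℝ, N y ≤ 1 → |D⁻¹ * Matrix.cramer (Matrix.of V)ᵀ y i| ≤ 1 := by
      intro y hy
      rw [Matrix.cramer_transpose_apply]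
      have h1 := hmax' (Function.update V i y) (fun j => by
        by_cases hj : j = i
        · subst hj; simpa using hy
        · simpa [Function.update_of_ne hj] using hV1 j)
      have h2 : Matrix.of (Function.update V i y) = (Matrix.of V).updateRow i y := by
        ext a b
        by_cases hj : a = i
        · subst hj; simp
        · simp [Function.update_of_ne hj, Matrix.updateRow_ne hj]
      rw [h2] at h1
      rw [abs_mul, abs_inv, inv_mul_le_iff₀ (abs_pos.mpr hdet), mul_one]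
      exact h1
    have hval : (D⁻¹ • (LinearMap.proj i ∘ₗ Matrix.cramer (Matrix.of V)ᵀ)) x =
        D⁻¹ * Matrix.cramer (Matrix.of V)ᵀ x i := rfl
    rw [hval]
    by_cases hx : N x = 0
    · have := h x hx
      subst this
      simp
    · have hpos : 0 < N x := lt_of_le_of_ne (apply_nonneg N x) (Ne.symm hx)
      have h3 := key ((N x)⁻¹ • x) (by
        rw [map_smul_eq_mul, Real.norm_of_nonneg (by positivity)]
        exact (inv_mul_cancel₀ hx).le)
      rw [map_smul, Pi.smul_apply, smul_eq_mul] at h3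
      have h4 : D⁻¹ * ((N x)⁻¹ * Matrix.cramer (Matrix.of V)ᵀ x i) =
          (N x)⁻¹ * (D⁻¹ * Matrix.cramer (Matrix.of V)ᵀ x i) := by ring
      rw [h4, abs_mul, abs_of_pos (inv_pos.mpr hpos), inv_mul_le_iff₀ hpos, mul_one] at h3
      exact h3
  · intro x
    have h1 := Matrix.mulVec_cramer (Matrix.of V)ᵀ x
    rw [Matrix.det_transpose] at h1
    ext j
    have h2 := congrFun h1 j
    simp only [Matrix.mulVec, dotProduct, Matrix.transpose_apply, Matrix.of_apply,
      Pi.smul_apply, smul_eq_mul] at h2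
    simp only [Finset.sum_apply, Pi.smul_apply, smul_eq_mul]
    have hval : ∀ i, (D⁻¹ • (LinearMap.proj i ∘ₗ Matrix.cramer (Matrix.of V)ᵀ)) x =
        D⁻¹ * Matrix.cramer (Matrix.of V)ᵀ x i := fun i => rfl
    simp only [hval]
    have h3 : ∑ i, D⁻¹ * Matrix.cramer (Matrix.of V)ᵀ x i * V i j =
        D⁻¹ * ∑ i, V i j * Matrix.cramer (Matrix.of V)ᵀ x i := by
      rw [Finset.mul_sum]
      refine Finset.sum_congr rfl fun i _ => ?_
      ring
    rw [h3, h2, ← hD, ← mul_assoc, inv_mul_cancel₀ hdet, one_mul]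

/-- Distance to Euclidean spaces: at most the dimension. -/
lemma LOBP_eu {W : Type} [AddCommGroup W] [Module ℝ W] [FiniteDimensional ℝ W]
    (N₀ : Seminorm ℝ W) (hN₀ : Def N₀) (C : ℝ) (hC : (finrank ℝ W : ℝ) ≤ C) : Eu C N₀ := by
  obtain ⟨d, hd⟩ : ∃ d, d = finrank ℝ W := ⟨_, rfl⟩
  obtain ⟨e, he1, he2⟩ := Pool.RX.p_BAS d W N₀ hN₀ hd.symm
  rw [← hd] at hC
  let N : Seminorm ℝ (Fin d → ℝ) := N₀.comp e.symm.toLinearMap
  have hNe : ∀ x, N (e x) = N₀ x := fun x => by
    show N₀ (e.symm (e x)) = N₀ x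
    rw [LinearEquiv.symm_apply_apply]
  have hN : ∀ v, N v = 0 → v = 0 := by
    intro v hv
    have h1 : e.symm v = 0 := hN₀ _ hv
    rwa [LinearEquiv.map_eq_zero_iff] at h1
  have hR : ∀ v, ‖v‖ ≤ 2 ^ d * N v := by
    intro v
    have h1 := he1 (e.symm v)
    rwa [LinearEquiv.apply_symm_apply] at h1
  have hN1 : ∀ v, N v ≤ ∑ i, |v i| := by
    intro v
    have h1 := he2 (e.symm v)
    rwa [LinearEquiv.apply_symm_apply] at h1
  obtain ⟨b, c, hb, hc, hrep⟩ := LOBP_auer N hN (2 ^ d) hR hN1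
  rcases Nat.eq_zero_or_pos d with h0 | hpos
  · refine ⟨0, 0, fun x => ?_⟩
    have h1 : N₀ x = 0 := by
      have h2 := hN1 (e x)
      rw [hNe] at h2
      subst h0
      rw [Fin.sum_univ_zero] at h2
      exact le_antisymm h2 (apply_nonneg N₀ x)
    rw [LinearMap.zero_apply, norm_zero, mul_zero, h1]
    exact ⟨le_rfl, le_rfl⟩
  · have hd0 : (0 : ℝ) < d := by exact_mod_cast hpos
    obtain ⟨s, hs⟩ : ∃ s : ℝ, s = (Real.sqrt d)⁻¹ := ⟨_, rfl⟩
    have hs0 : 0 < s := by
      rw [hs]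
      exact inv_pos.2 (Real.sqrt_pos.2 hd0)
    have hs2 : s ^ 2 * d = 1 := by
      rw [hs, inv_pow, Real.sq_sqrt hd0.le]
      exact inv_mul_cancel₀ hd0.ne'
    let T : W →ₗ[ℝ] EuclideanSpace ℝ (Fin d) :=
      (WithLp.linearEquiv 2 ℝ (Fin d → ℝ)).symm.toLinearMap ∘ₗ
        LinearMap.pi (fun i => s • ((c i) ∘ₗ e.toLinearMap))
    have hT : ∀ x i, T x i = s * c i (e x) := fun x i => rfl
    have hT2 : ∀ x, ‖T x‖ ^ 2 = s ^ 2 * ∑ i, c i (e x) ^ 2 := by
      intro x
      rw [EuclideanSpace.norm_sq_eq, Finset.mul_sum]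
      refine Finset.sum_congr rfl fun i _ => ?_
      rw [hT, Real.norm_eq_abs, sq_abs]
      ring
    refine ⟨d, T, fun x => ⟨?_, ?_⟩⟩
    · refine le_of_sq_le_sq ?_ (apply_nonneg N₀ x)
      rw [hT2]
      calc s ^ 2 * ∑ i, c i (e x) ^ 2 ≤ s ^ 2 * ∑ _i : Fin d, N₀ x ^ 2 := by
            refine mul_le_mul_of_nonneg_left (Finset.sum_le_sum fun i _ => ?_) (sq_nonneg s)
            have h1 := hc i (e x)
            rw [hNe] at h1
            exact sq_le_sq' (by linarith [neg_abs_le (c i (e x))]) ((le_abs_self _).trans h1)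
        _ = N₀ x ^ 2 := by
            rw [Finset.sum_const, Finset.card_univ, Fintype.card_fin, nsmul_eq_mul, ← mul_assoc,
              hs2, one_mul]
    · have h1 : N₀ x ≤ ∑ i, |c i (e x)| := by
        rw [← hNe x]
        calc N (e x) = N (∑ i, c i (e x) • b i) := by rw [← hrep (e x)]
          _ ≤ ∑ i, N (c i (e x) • b i) := by
              refine Finset.le_sum_of_subadditive N (map_zero N).le (fun a b => map_add_le_add N a b) _ _
          _ ≤ ∑ i, |c i (e x)| := by
              refine Finset.sum_le_sum fun i _ => ?_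
              rw [map_smul_eq_mul, Real.norm_eq_abs]
              exact mul_le_of_le_one_right (abs_nonneg _) (hb i)
      have h2 : (∑ i, |c i (e x)|) ^ 2 ≤ (d * ‖T x‖) ^ 2 := by
        have h3 := sq_sum_le_card_mul_sum_sq (s := (Finset.univ : Finset (Fin d)))
          (f := fun i => |c i (e x)|)
        rw [Finset.card_univ, Fintype.card_fin] at h3
        have h4 : ∑ i, |c i (e x)| ^ 2 = ∑ i, c i (e x) ^ 2 :=
          Finset.sum_congr rfl fun i _ => sq_abs _
        rw [h4] at h3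
        have h5 : (d * ‖T x‖) ^ 2 = d * ((s ^ 2 * d) * ∑ i, c i (e x) ^ 2) := by
          rw [mul_pow, hT2]
          ring
        rw [h5, hs2, one_mul]
        exact h3
      have h6 : ∑ i, |c i (e x)| ≤ d * ‖T x‖ := le_of_sq_le_sq h2 (by positivity)
      calc N₀ x ≤ d * ‖T x‖ := h1.trans h6
        _ ≤ C * ‖T x‖ := mul_le_mul_of_nonneg_right hC (norm_nonneg _)

theorem p_LOBP : Stmt_LOBP := by
  intro a V _ _ _ N hN F hF
  refine LOBP_eu (N.comp F.subtype) (hN.comp F.subtype F.injective_subtype) _ ?_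
  have h1 : (finrank ℝ F : ℝ) ≤ a := by exact_mod_cast hF
  linarith

end Pool.HP
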