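import Pool.Agent.Work.MP_3e8c7a_hp.Interface

/-! Block LOCP (helper87). -/

set_option autoImplicit false

namespace Pool.HP

open Module Pool.Agent.MP3e8c7a Pool.EH

theorem p_LOCP (hSCL : Stmt_SCLP) (hLOB : Stmt_LOBP) : Stmt_LOCP := by
  obtain ⟨K₁, hK₁, h1⟩ := hSCL 6
  refine ⟨K₁ + 4424, by omega, ?_⟩
  intro D hD V _ _ _ N m hN hm
  have hKr : ((K₁ + 4424 : ℕ) : ℝ) = K₁ + 4424 := by push_cast; ring
  have hK1r : (1 : ℝ) ≤ K₁ := by exact_mod_cast hK₁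
  have hmono : Pw K₁ D ≤ Pw (K₁ + 4424) D := Pw_mono hK₁ (by omega) hD le_rfl
  rcases le_or_gt (16 * D ^ 2) (m : ℝ) with hbig | hsmall
  · have hD0 : 0 < D := by linarith
    set t : ℝ := m / D with ht
    have htD : t * D = m := by rw [ht]; field_simp
    have ht16 : 16 * D ≤ t := by
      rw [ht, le_div_iff₀ hD0]
      nlinarith
    have ht1 : 16 ≤ t := by nlinarith
    have htsq : 16 * (m : ℝ) ≤ t ^ 2 := by
      rw [← htD]
      nlinarith
    set a : ℕ := ⌊t⌋₊ with ha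
    have ha1 : (a : ℝ) ≤ t := Nat.floor_le (by linarith)
    have ha2 : t < a + 1 := Nat.lt_floor_add_one _
    have ha15 : (15 : ℝ) ≤ a := by linarith
    have ha2' : 2 ≤ a := by
      have : (2 : ℝ) ≤ a := by linarith
      exact_mod_cast this
    have hasq : 4 * (m : ℝ) ≤ (a : ℝ) ^ 2 := by
      have h5 : t / 2 ≤ a := by linarith
      have h6 : (t / 2) ^ 2 ≤ (a : ℝ) ^ 2 := pow_le_pow_left₀ (by linarith) h5 2
      nlinarith
    have hLoc : Loc D a N := by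
      intro F hF
      refine hm F ?_
      have h7 : (finrank ℝ F : ℝ) ≤ a := by exact_mod_cast hF
      calc (finrank ℝ F : ℝ) * D ≤ t * D := mul_le_mul_of_nonneg_right (h7.trans ha1) hD0.le
        _ = m := htD
    have h8 := h1 D hD V N a hN ha2' hLoc
    refine h8.mono hmono ?_
    have hm16 : (16 : ℝ) ≤ m := by nlinarith
    have hA : ((((4 * m + 2) * (4 * m + 2) + (4 * m + 2) + 1 : ℕ)) : ℝ) ≤ ((a ^ 6 : ℕ) : ℝ) := by
      push_cast
      have h9 : (4 * (m : ℝ)) ^ 3 ≤ ((a : ℝ) ^ 2) ^ 3 := pow_le_pow_left₀ (by positivity) hasq 3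
      have h10 : ((a : ℝ) ^ 2) ^ 3 = (a : ℝ) ^ 6 := by ring
      have h11 : 16 * (m : ℝ) ^ 2 ≤ (m : ℝ) ^ 3 := by nlinarith [sq_nonneg (m : ℝ)]
      nlinarith
    exact_mod_cast hA
  · refine (hLOB _ V N hN).mono ?_ le_rfl
    push_cast
    have hm0 : (0 : ℝ) ≤ m := Nat.cast_nonneg m
    have hD0 : 0 < D := by linarith
    have h2 : (4424 : ℝ) * D ^ 4 ≤ Pw (K₁ + 4424) D := by
      have h3 : (((K₁ + 4424 : ℕ) : ℝ) * D) ^ 4 ≤ Pw (K₁ + 4424) D :=
        pow_le_pow_right₀ (Pw_base (by omega) hD) (by omega)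
      refine le_trans ?_ h3
      rw [mul_pow]
      refine mul_le_mul_of_nonneg_right ?_ (by positivity)
      rw [hKr]
      have h4 : (4424 : ℝ) ≤ K₁ + 4424 := by linarith
      calc (4424 : ℝ) ≤ (K₁ + 4424) := h4
        _ = ((K₁ : ℝ) + 4424) ^ 1 := by ring
        _ ≤ ((K₁ : ℝ) + 4424) ^ 4 := pow_le_pow_right₀ (by linarith) (by norm_num)
    refine le_trans ?_ h2
    have hD2 : 1 ≤ D ^ 2 := one_le_pow₀ hD
    have hD4 : D ^ 2 ≤ D ^ 4 := pow_le_pow_right₀ hD (by norm_num)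
    have hm2 : (m : ℝ) ^ 2 ≤ (16 * D ^ 2) ^ 2 := pow_le_pow_left₀ hm0 hsmall.le 2
    nlinarith

end Pool.HP
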