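import Pool.Agent.Work.MP_3e8c7a_hp.Interface
import Pool.Agent.Work.MP_3e8c7a_h.B_MAI

/-! Block MAIP (helper87). -/

set_option autoImplicit false

namespace Pool.HP

open Module Pool.Agent.MP3e8c7a Pool.EH

theorem p_MAIP (h1 : Stmt_LOBP) (h2 : Stmt_LARP) (h3 : Stmt_STZP) (h4 : Stmt_GPLP) (h5 : Stmt_STPP)
    (h6 : Pool.EH.Stmt_SPL) : Stmt_MAIP := by
  intro α ε b hα hε hε1 hb
  obtain ⟨K₀, hK₀, hSTZ⟩ := h3 α b hα hb
  have hβ : 0 < ε / 2 := by linarith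
  have hβ1 : ε / 2 ≤ 1 := by linarith
  obtain ⟨K₁, hK₁, hGPL⟩ := h4 (ε / 2) b hβ hβ1 hb
  obtain ⟨K₂, hK₂, hLAR⟩ := h2
  obtain ⟨K₃, hK₃, hSTP⟩ := h5 α (ε / 2) b hα hβ hβ1 hb
  -- the constants as functions of `D`
  have p0 : PB fun D => Pw K₀ D := PB.Pw hK₀
  have o0 : ∀ D : ℝ, 1 ≤ D → 1 ≤ Pw K₀ D := fun D hD => one_le_Pw hK₀ hD
  have pR : PB fun D => Pw K₁ (Pw K₀ D) := p0.comp o0 hK₁
  have oR : ∀ D : ℝ, 1 ≤ D → 1 ≤ Pw K₁ (Pw K₀ D) := fun D hD => one_le_Pw hK₁ (o0 D hD)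
  have hc : 0 < 8 / ε + 2 / α := by positivity
  have pS : PB fun D => Pw K₁ (Pw K₀ D) + (8 / ε + 2 / α) := pR.add (PB.const _)
  have p1 : PB fun D => 4 * (Pw K₁ (Pw K₀ D) * (Pw K₁ (Pw K₀ D) + (8 / ε + 2 / α))) :=
    (PB.const 4).mul (pR.mul pS fun D hD => by linarith [oR D hD]) fun D hD => by
      have := oR D hD
      positivity
  have o1 : ∀ D : ℝ, 1 ≤ D → 1 ≤ 4 * (Pw K₁ (Pw K₀ D) * (Pw K₁ (Pw K₀ D) + (8 / ε + 2 / α))) := by
    intro D hD
    have := oR D hD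
    nlinarith
  have p2 := p1.comp o1 hK₂
  have p3 : PB fun D => Pw K₁ (Pw K₀ D) * Pw K₀ D ^ 4 :=
    pR.mul (p0.pow (fun D hD => by linarith [o0 D hD]) 4) fun D hD => by
      have := o0 D hD
      positivity
  have o3 : ∀ D : ℝ, 1 ≤ D → 1 ≤ Pw K₁ (Pw K₀ D) * Pw K₀ D ^ 4 := by
    intro D hD
    have a1 := oR D hD
    have a2 : 1 ≤ Pw K₀ D ^ 4 := one_le_pow₀ (o0 D hD)
    nlinarith
  have p4 := p3.comp o3 hK₃
  have p5 := ((p0.add p2).add p4).add (PB.const 1)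
  have o5 : ∀ D : ℝ, 1 ≤ D → 0 ≤ Pw K₀ D + Pw K₂ (4 * (Pw K₁ (Pw K₀ D) * (Pw K₁ (Pw K₀ D) + (8 / ε + 2 / α)))) +
      Pw K₃ (Pw K₁ (Pw K₀ D) * Pw K₀ D ^ 4) + 1 := by
    intro D hD
    have a1 := o0 D hD
    have a2 := one_le_Pw hK₂ (o1 D hD)
    have a3 := one_le_Pw hK₃ (o3 D hD)
    linarith
  obtain ⟨K, hK, hKf⟩ := p5.pow o5 2
  refine ⟨K, hK, ?_⟩
  intro D hD V _ _ _ p r k hp hr hH hk E hE hEM
  have hKD := hKf D hD
  simp only at hKD
  have a0 := o0 D hD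
  have aR := oR D hD
  have a1 := o1 D hD
  have a3 := o3 D hD
  have b2 := one_le_Pw hK₂ a1
  have b3 := one_le_Pw hK₃ a3
  have hD₀ : D ≤ Pw K₀ D := le_Pw hK₀ hD
  set D₀ : ℝ := Pw K₀ D with hD₀d
  set R : ℝ := Pw K₁ D₀ with hRd
  set S : ℝ := R + (8 / ε + 2 / α) with hSd
  set D₁ : ℝ := 4 * (R * S) with hD₁d
  have hR0 : 0 < R := by linarith
  have hS0 : 0 < S := by rw [hSd]; linarith
  have hSR : R ≤ S := by rw [hSd]; linarith
  have c1 : Pw K₂ D₁ * Pw K₂ D₁ ≤ Pw K D := by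
    refine le_trans ?_ hKD
    have : 0 ≤ D₀ + Pw K₃ (R * D₀ ^ 4) + 1 := by linarith
    nlinarith
  have c2 : Pw K₃ (R * D₀ ^ 4) ≤ Pw K D := by
    refine le_trans ?_ hKD
    have : 0 ≤ D₀ + Pw K₂ D₁ + 1 := by linarith
    nlinarith
  rcases lt_or_ge (finrank ℝ V : ℝ) (D₀ + Pw K₂ D₁ + Pw K₃ (R * D₀ ^ 4)) with hn | hn
  · have hE1 : Eu ((finrank ℝ V : ℝ) + 1) p := MAI_top (h1 (finrank ℝ V) V p hp) le_rfl
    have hE2 : Eu ((finrank ℝ V : ℝ) + 1) r := MAI_top (h1 (finrank ℝ V) V r hr) le_rfl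
    have hn0 : (0 : ℝ) ≤ finrank ℝ V := Nat.cast_nonneg _
    refine (Eu.iso hp hr (by linarith) hE1 hE2 rfl).mono (le_trans ?_ hKD)
    nlinarith
  · set n := finrank ℝ V with hnd
    have hnD₀ : D₀ ≤ n := by linarith
    have hnK₂ : Pw K₂ D₁ ≤ n := by linarith
    have hnK₃ : Pw K₃ (R * D₀ ^ 4) ≤ n := by linarith
    have hn1 : (1 : ℝ) ≤ n := by linarith
    have hn0 : (0 : ℝ) < n := by linarith
    have hkE : k ≤ finrank ℝ E := by
      have h7 : (k : ℝ) ≤ finrank ℝ E := by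
        have : 0 ≤ ε * n := by positivity
        linarith
      exact_mod_cast h7
    have hpE : Eu D₀ (p.comp E.subtype) := hEM.mono hD₀
    have hrE : Eu D₀ (r.comp E.subtype) := hSTZ D hD V p r k E hp hr hH hnD₀ hk hkE hEM
    set δ : ℝ := 1 / S with hδd
    have hδ0 : 0 < δ := by positivity
    have hδS : δ * S = 1 := by rw [hδd]; field_simp
    have hδR : δ * R ≤ 1 := by rw [← hδS]; exact mul_le_mul_of_nonneg_left hSR hδ0.le
    have hδε : δ ≤ ε / 8 := by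
      rw [hδd, div_le_iff₀ hS0, hSd]
      have e1 : ε / 8 * (R + (8 / ε + 2 / α)) = 1 + ε / 8 * (R + 2 / α) := by field_simp; ring
      rw [e1]
      have : 0 ≤ ε / 8 * (R + 2 / α) := by positivity
      linarith
    have hδα : δ ≤ α / 2 := by
      rw [hδd, div_le_iff₀ hS0, hSd]
      have e1 : α / 2 * (R + (8 / ε + 2 / α)) = 1 + α / 2 * (R + 8 / ε) := by field_simp; ring
      rw [e1]
      have : 0 ≤ α / 2 * (R + 8 / ε) := by positivity
      linarith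
    set μ := ⌊δ * n⌋₊ with hμ
    have hμ1 : (μ : ℝ) ≤ δ * n := Nat.floor_le (by positivity)
    have hμ2 : δ * n < μ + 1 := Nat.lt_floor_add_one _
    have hμε : (μ : ℝ) ≤ ε / 8 * n := hμ1.trans (mul_le_mul_of_nonneg_right hδε hn0.le)
    have hεn : 0 < ε * n := by positivity
    have h2μ : 2 * μ < finrank ℝ E := by
      have h7 : ((2 * μ : ℕ) : ℝ) < finrank ℝ E := by
        push_cast
        have : (0 : ℝ) ≤ k := Nat.cast_nonneg _
        linarith
      exact_mod_cast h7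
    rcases h6 V p r D₀ R μ hp hr a0 aR E h2μ hpE hrE with hA | hA
    · obtain ⟨Y, Y', t, hY, hY', hYd, hYd', ht, hYt, hYt'⟩ := hA
      have hμk : μ ≤ k := by
        have h7 : (μ : ℝ) ≤ k := by
          have h8 : (μ : ℝ) ≤ α / 2 * n := hμ1.trans (mul_le_mul_of_nonneg_right hδα hn0.le)
          have h9 : 0 < α * n := by positivity
          linarith
        exact_mod_cast h7
      have hμR : (μ : ℝ) * R ≤ n := by
        calc (μ : ℝ) * R ≤ δ * n * R := mul_le_mul_of_nonneg_right hμ1 hR0.le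
          _ = δ * R * n := by ring
          _ ≤ 1 * n := mul_le_mul_of_nonneg_right hδR hn0.le
          _ = n := one_mul _
      have hG := hGPL D₀ a0 V p r k μ t hp hr hH E Y Y' (by linarith) hYd hYd' hμR hμk hpE hrE
        (hpE.sub hY) (hrE.sub hY) (hpE.sub hY') (hrE.sub hY') ht hYt hYt'
      set a := ⌊(μ : ℝ) / R⌋₊ with ha
      have ha1 : (a : ℝ) ≤ μ / R := Nat.floor_le (by positivity)
      have ha2 : (μ : ℝ) / R < a + 1 := Nat.lt_floor_add_one _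
      have haR : (a : ℝ) * R ≤ μ := by rwa [le_div_iff₀ hR0] at ha1
      have haR2 : (μ : ℝ) < (a + 1) * R := by rwa [div_lt_iff₀ hR0] at ha2
      have hnD₁ : D₁ ≤ n := (le_Pw hK₂ a1).trans hnK₂
      have hna : (n : ℝ) ≤ D₁ * a := by
        -- `δ n < μ + 1 < (a + 1) R + 1`, times `S`
        have e1 : (n : ℝ) < ((a + 1) * R + 1) * S := by
          have e2 : δ * n < (a + 1) * R + 1 := by linarith
          have e3 : (n : ℝ) = δ * n * S := by
            calc (n : ℝ) = δ * S * n := by rw [hδS, one_mul]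
              _ = δ * n * S := by ring
          rw [e3]
          exact mul_lt_mul_of_pos_right e2 hS0
        have e4 : ((a + 1) * R + 1) * S = (a : ℝ) * (R * S) + R * S + S := by ring
        have e5 : S ≤ R * S := by nlinarith
        rw [hD₁d] at hnD₁ ⊢
        nlinarith
      have hLD : R ≤ D₁ := by
        rw [hD₁d]
        have e6 : 1 ≤ S := by linarith
        nlinarith
      have hLp : Loc D₁ a p := fun F hF => ((hG F (by
        have : (finrank ℝ F : ℝ) ≤ a := by exact_mod_cast hF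
        exact (mul_le_mul_of_nonneg_right this hR0.le).trans haR)).1).mono hLD
      have hLr : Loc D₁ a r := fun F hF => ((hG F (by
        have : (finrank ℝ F : ℝ) ≤ a := by exact_mod_cast hF
        exact (mul_le_mul_of_nonneg_right this hR0.le).trans haR)).2).mono hLD
      have e1 := hLAR D₁ a1 V p a hp hnK₂ hna hLp
      have e2 := hLAR D₁ a1 V r a hr hnK₂ hna hLr
      exact (Eu.iso hp hr b2 e1 e2 rfl).mono c1
    · obtain ⟨E₁, lam, hE₁, hE₁d, hlam, hE₁x⟩ := hA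
      have hd : (k : ℝ) + ε / 2 * n ≤ finrank ℝ E₁ := by
        have h8 : (finrank ℝ E₁ : ℝ) + 2 * μ = finrank ℝ E := by exact_mod_cast hE₁d
        linarith
      have hDle : D₀ ≤ R * D₀ ^ 4 := by
        have e7 : D₀ ≤ D₀ ^ 4 := by
          calc D₀ = D₀ ^ 1 := (pow_one _).symm
            _ ≤ D₀ ^ 4 := pow_le_pow_right₀ a0 (by norm_num)
        nlinarith
      have hfin := hSTP (R * D₀ ^ 4) a3 V p (MAI_sc lam r) k hp (MAI_def hlam hr) (MAI_hyp hlam hH) hnK₃ hk E₁ hd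
        ((hpE.sub hE₁).mono hDle) ((MAI_eu (hrE.sub hE₁)).mono hDle) (fun x hx => by
          rw [MAI_sc_apply hlam]
          refine ⟨(hE₁x x hx).1.trans ?_, (hE₁x x hx).2⟩
          have h8 : 0 ≤ lam * r x := mul_nonneg hlam.le (apply_nonneg _ _)
          nlinarith)
      exact (MAI_iso' hlam hfin).mono c2

end Pool.HP
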