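import Pool.Agent.Work.MP_3e8c7a_hp.Interface
import Pool.Agent.Work.MP_3e8c7a_h.B_GPL

/-! Block ONEP of THEOREM H-POLY. -/

set_option autoImplicit false

namespace Pool.HP

open Module Pool.Agent.MP3e8c7a Pool.EH

theorem p_ONEP (hGPLP : Stmt_GPLP) (hSFLP : Stmt_SFLP) : Stmt_ONEP := by
  intro β b hβ hβ1 hb
  obtain ⟨K₁, hK₁, hsfl⟩ := hSFLP β b hβ hβ1 hb
  obtain ⟨K₂, hK₂, hgpl⟩ := hGPLP β b hβ hβ1 hb
  have hPB : PB (fun D => Pw K₁ D + Pw K₂ (Pw K₁ D) * D) :=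
    (PB.Pw hK₁).add ((PB.comp (PB.Pw hK₁) (fun D hD => one_le_Pw hK₁ hD) hK₂).mul PB.id
      (fun D hD => by linarith))
  obtain ⟨K, hK, hf⟩ := hPB
  refine ⟨K, hK, fun D hD => ?_⟩
  have hC₁1 : 1 ≤ Pw K₁ D := one_le_Pw hK₁ hD
  have hD₁ : D ≤ Pw K₁ D := le_Pw hK₁ hD
  have hC₂1 : 1 ≤ Pw K₂ (Pw K₁ D) := one_le_Pw hK₂ hC₁1
  have hfD : Pw K₁ D + Pw K₂ (Pw K₁ D) * D ≤ Pw K D := hf D hD
  have h1 : Pw K₁ D ≤ Pw K D := by nlinarith
  have h2 : Pw K₂ (Pw K₁ D) * D ≤ Pw K D := by linarith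
  have h3 : Pw K₂ (Pw K₁ D) ≤ Pw K D := by nlinarith
  have key : ∀ (V : Type) [AddCommGroup V] [Module ℝ V] [FiniteDimensional ℝ V] (p r : Seminorm ℝ V) (k : ℕ),
      Def p → Def r → Hyp b k p r →
      ∀ E G : Submodule ℝ V, k + β * finrank ℝ V ≤ finrank ℝ E →
      (finrank ℝ G : ℝ) * Pw K D ≤ finrank ℝ V → finrank ℝ G ≤ k →
      Eu D (p.comp E.subtype) → Eu D (r.comp E.subtype) → (∀ x ∈ E, p x ≤ D * r x ∧ r x ≤ D * p x) →
      (∀ y ∈ G, Pw K D * p y ≤ r y) →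
      ∀ F : Submodule ℝ V, (finrank ℝ F : ℝ) * Pw K D ≤ finrank ℝ G →
        Eu (Pw K D) (p.comp F.subtype) ∧ Eu (Pw K D) (r.comp F.subtype) := by
    intro V _ _ _ p r k hp hr hH E G hE hG hGk hEp hEr hΛE hdev F hF
    have hn0 : (0 : ℝ) ≤ finrank ℝ V := Nat.cast_nonneg _
    have hg0 : (0 : ℝ) ≤ finrank ℝ G := Nat.cast_nonneg _
    have hF0 : (0 : ℝ) ≤ finrank ℝ F := Nat.cast_nonneg _
    have hk0 : (0 : ℝ) ≤ β * finrank ℝ V := by positivity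
    have hG1 : (finrank ℝ G : ℝ) * Pw K₁ D ≤ finrank ℝ V :=
      (mul_le_mul_of_nonneg_left h1 hg0).trans hG
    have hG2 : (finrank ℝ G : ℝ) * Pw K₂ (Pw K₁ D) ≤ finrank ℝ V :=
      (mul_le_mul_of_nonneg_left h3 hg0).trans hG
    obtain ⟨hGp, hGr⟩ := hsfl D hD V p r k hp hr hH E G hE hG1 hGk hEp hEr hΛE (fun y hy =>
      (mul_le_mul_of_nonneg_right h1 (apply_nonneg _ _)).trans (hdev y hy))
    have hkE : k ≤ finrank ℝ E := by
      have : (k : ℝ) ≤ finrank ℝ E := by linarith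
      exact_mod_cast this
    obtain ⟨Y', hY'E, hY'⟩ := GPL_sub E (d := finrank ℝ G) (hGk.trans hkE)
    have h4 := hgpl (Pw K₁ D) hC₁1 V p r k (finrank ℝ G) D hp hr hH E G Y' hE rfl hY' hG2 hGk
      (hEp.mono hD₁) (hEr.mono hD₁) hGp hGr ((hEp.sub hY'E).mono hD₁) ((hEr.sub hY'E).mono hD₁)
      (by linarith)
      (fun y hy => (mul_le_mul_of_nonneg_right h2 (apply_nonneg _ _)).trans (hdev y hy))
      (fun y hy => (hΛE y (hY'E hy)).2) F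
      ((mul_le_mul_of_nonneg_left h3 hF0).trans hF)
    exact ⟨h4.1.mono h3, h4.2.mono h3⟩
  intro V _ _ _ p r k hp hr hH E G hE hG hGk hEp hEr hΛE hdev F hF
  rcases hdev with hdev | hdev
  · exact key V p r k hp hr hH E G hE hG hGk hEp hEr hΛE hdev F hF
  · exact (key V r p k hr hp (hH.symm (by linarith)) E G hE hG hGk hEr hEp (fun x hx => (hΛE x hx).symm) hdev
      F hF).symm

end Pool.HP
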