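import Pool.Agent.Work.MP_3e8c7a_hp.Interface

/-! # Block POSP -/

set_option autoImplicit false

namespace Pool.HP

open Module Pool.Agent.MP3e8c7a Pool.EH

lemma POSP_two {K : ℕ} (hK : 1 ≤ K) {D : ℝ} (hD : 1 ≤ D) : 2 * Pw K D ≤ Pw (2 + K) D := by
  have h1 : Pw 2 D * Pw K D ≤ Pw (2 + K) D := Pw_mul (by norm_num) hK hD
  have h2 : (2 : ℝ) ≤ Pw 2 D := by
    have : Pw 2 D = (2 * D) ^ 2 := by simp [Pw]
    rw [this]
    nlinarith
  have h3 : 0 < Pw K D := Pw_pos hK hD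
  nlinarith

theorem p_POSP (h1 : Stmt_PO1P) : Stmt_POSP := by
  intro η hη hη1
  obtain ⟨K, hK, h⟩ := h1 (η / 2) (by linarith) (by linarith)
  refine ⟨2 + K, by omega, ?_⟩
  intro D hD V _ _ _ p r hp hr E F hEp hEr hF
  have hE0 : (0 : ℝ) ≤ finrank ℝ E := Nat.cast_nonneg _
  have hF0 : (0 : ℝ) ≤ finrank ℝ F := Nat.cast_nonneg _
  have h2K := POSP_two hK hD
  have hP0 : 0 < Pw K D := Pw_pos hK hD
  have hmono : Pw K D ≤ Pw (2 + K) D := by linarith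
  have hF2 : (finrank ℝ F : ℝ) * (2 * Pw K D) ≤ finrank ℝ E :=
    (mul_le_mul_of_nonneg_left h2K hF0).trans hF
  have hF1 : (finrank ℝ F : ℝ) * Pw K D ≤ finrank ℝ E := by
    have : 0 ≤ (finrank ℝ F : ℝ) * Pw K D := by positivity
    nlinarith
  obtain ⟨E1, hE1, hE1', hP1⟩ := h D hD V p hp E F hEp hF1
  have h2 : (1 / 2 : ℝ) * finrank ℝ E ≤ finrank ℝ E1 := by nlinarith
  have hF3 : (finrank ℝ F : ℝ) * Pw K D ≤ finrank ℝ E1 := by nlinarith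
  obtain ⟨E2, hE2, hE2', hP2⟩ := h D hD V r hr E1 F (hEr.sub hE1) hF3
  refine ⟨E2, hE2.trans hE1, ?_, hP1.mono hmono le_rfl hE2, hP2.mono hmono le_rfl le_rfl⟩
  have h3 : (1 - η / 2) * ((1 - η / 2) * finrank ℝ E) ≤ (1 - η / 2) * (finrank ℝ E1 : ℝ) :=
    mul_le_mul_of_nonneg_left hE1' (by linarith)
  have h4 : (1 - η) * (finrank ℝ E : ℝ) ≤ (1 - η / 2) * ((1 - η / 2) * finrank ℝ E) := by
    have h5 : 0 ≤ (η / 2) ^ 2 * (finrank ℝ E : ℝ) := by positivity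
    nlinarith
  linarith

end Pool.HP
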