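import Pool.Agent.Work.MP_3e8c7a_hp.Interface
import Pool.Agent.Work.MP_3e8c7a_h.B_SCL

/-!
# MP_3e8c7a_an, THEOREM H with polynomial constants, block SCLP: change of scale
-/

set_option autoImplicit false

namespace Pool.HP

open Module Pool.Agent.MP3e8c7a Pool.EH

theorem p_SCLP (hTYL : Pool.EH.Stmt_TYL) (hTYM : Pool.EH.Stmt_TYM) (hORT : Pool.EH.Stmt_ORT)
    (hKWA : Pool.EH.Stmt_KWA) : Stmt_SCLP := by
  intro κ
  obtain ⟨j, hj⟩ : ∃ j : ℕ, j = 2 * κ + 1 := ⟨_, rfl⟩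
  have hPB : PB fun D => D ^ j * D ^ j + 1 :=
    ((PB.id.pow (fun D hD => by linarith) j).mul (PB.id.pow (fun D hD => by linarith) j)
      (fun D hD => pow_nonneg (by linarith) j)).add (PB.const 1)
  obtain ⟨K, hK, hKD⟩ := hPB
  refine ⟨K, hK, ?_⟩
  intro C hC V _ _ _ N a hN ha hloc
  have hC0 : 0 ≤ C := by linarith
  have hCj : 1 ≤ C ^ j := one_le_pow₀ hC
  have hCC : 1 ≤ C ^ j * C ^ j := one_le_mul_of_one_le_of_one_le hCj hCj
  have hP : C ^ j * C ^ j + 1 ≤ Pw K C := hKD C hC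
  have key : ∀ i : ℕ, 1 ≤ i → Ty (C ^ i) (a ^ i) N ∧ Co (C ^ i) (a ^ i) N := by
    intro i hi
    induction i, hi using Nat.le_induction with
    | base =>
      rw [pow_one, pow_one]
      exact hTYL V N C a hC hloc
    | succ i hi ih =>
      have h1 := hTYL V N C a hC hloc
      have h2 := hTYM V N (C ^ i) C (a ^ i) a
      rw [pow_succ, pow_succ]
      exact ⟨h2.1 ih.1 h1.1, h2.2 ih.2 h1.2⟩
  obtain ⟨hty, hco⟩ := key j (by omega)
  intro F hF
  have hdef : Def (N.comp F.subtype) := hN.comp F.subtype F.injective_subtype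
  refine hKWA F (N.comp F.subtype) (a ^ j) (C ^ j * C ^ j) (Pw K C) hdef ?_ hCC
    (by linarith) ?_
  · have h1 : finrank ℝ F * finrank ℝ F ≤ a ^ κ * a ^ κ := Nat.mul_le_mul hF hF
    have h2 : 1 ≤ a ^ κ * a ^ κ := by
      have : 0 < a ^ κ * a ^ κ := by positivity
      omega
    have h3 : a ^ j = a * (a ^ κ * a ^ κ) := by
      rw [hj]
      ring
    have h4 : 2 * (a ^ κ * a ^ κ) ≤ a * (a ^ κ * a ^ κ) := Nat.mul_le_mul_right _ ha
    omega
  · intro U hU x y hxy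
    have h5 := hORT F (N.comp F.subtype) (C ^ j) (C ^ j) (a ^ j) (by positivity) (by positivity)
      (SCL_ty hty F.subtype) (SCL_co hco F.subtype) U hU x y hxy
    exact h5

end Pool.HP
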