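import Pool.Agent.Work.MP_3e8c7a_hp.Interface
import Pool.Agent.Work.MP_3e8c7a_h.B_SFL

/-! Block SFLP (helper52). -/

set_option autoImplicit false

namespace Pool.HP

open Module Pool.Agent.MP3e8c7a Pool.EH

theorem p_SFLP (hPOS : Stmt_POSP) (hSLF : Stmt_SLFP) : Stmt_SFLP := by
  intro β b hβ hβ1 hb
  obtain ⟨K₁, hK₁, hpos⟩ := hPOS β hβ hβ1
  obtain ⟨K₃, hK₃, hslf⟩ := hSLF b hb
  have hAPB : PB fun D => 2 * Pw K₁ D + 1 :=
    ((PB.const 2).mul (PB.Pw hK₁) fun D hD => (Pw_pos hK₁ hD).le).add (PB.const 1)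
  have hBPB : PB fun D => 2 * D * D ^ 2 := by
    refine ((PB.const 2).mul PB.id fun D hD => by linarith).mul (PB.pow PB.id (fun D hD => by linarith) 2)
      fun D hD => by positivity
  have hCPB : PB fun D => (2 * Pw K₁ D + 1) * (2 * D * D ^ 2) := by
    refine hAPB.mul hBPB fun D hD => ?_
    have h0 : (0 : ℝ) ≤ D := by linarith
    positivity
  have hB1 : ∀ D : ℝ, 1 ≤ D → 2 * D ≤ 2 * D * D ^ 2 := by
    intro D hD
    have h2 : 1 ≤ D ^ 2 := one_le_pow₀ hD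
    nlinarith
  have hC1 : ∀ D : ℝ, 1 ≤ D → D ≤ (2 * Pw K₁ D + 1) * (2 * D * D ^ 2) := by
    intro D hD
    have h1 := hB1 D hD
    have h2 := Pw_pos hK₁ hD
    nlinarith
  obtain ⟨K, hK, hKf⟩ : PB fun D => 1 / β * Pw K₁ D + Pw K₃ ((2 * Pw K₁ D + 1) * (2 * D * D ^ 2)) :=
    ((PB.const (1 / β)).mul (PB.Pw hK₁) fun D hD => (Pw_pos hK₁ hD).le).add
      (hCPB.comp (fun D hD => hD.trans (hC1 D hD)) hK₃)
  refine ⟨K, hK, ?_⟩
  intro D hD V _ _ _ p r k hp hr hH E G hE hG hGk hEp hEr hcomp hRG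
  have hKD := hKf D hD
  simp only at hKD
  obtain ⟨B, hB⟩ : ∃ B : ℝ, B = 2 * D * D ^ 2 := ⟨_, rfl⟩
  obtain ⟨A, hA⟩ : ∃ A : ℝ, A = 2 * Pw K₁ D + 1 := ⟨_, rfl⟩
  have q1 : 0 < Pw K₁ D := Pw_pos hK₁ hD
  have hDB : 2 * D ≤ B := by rw [hB]; exact hB1 D hD
  have hB1' : 1 ≤ B := by linarith
  have hA1 : 1 ≤ A := by rw [hA]; linarith
  have hDAB : D ≤ A * B := by rw [hA, hB]; exact hC1 D hD
  have hAB1 : 1 ≤ A * B := hD.trans hDAB
  have hAB : A ≤ A * B := le_mul_of_one_le_right (by linarith) hB1'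
  rw [← hA, ← hB] at hKD
  have q3 : 0 < Pw K₃ (A * B) := Pw_pos hK₃ hAB1
  have q0 : 0 < 1 / β * Pw K₁ D := by positivity
  have k1 : 1 / β * Pw K₁ D ≤ Pw K D := by linarith
  have k3 : Pw K₃ (A * B) ≤ Pw K D := by linarith
  have hn0 : (0 : ℝ) ≤ finrank ℝ V := Nat.cast_nonneg _
  have hG0 : (0 : ℝ) ≤ finrank ℝ G := Nat.cast_nonneg _
  have hk0 : (0 : ℝ) ≤ k := Nat.cast_nonneg _
  have hEn : (finrank ℝ E : ℝ) ≤ finrank ℝ V := by exact_mod_cast Submodule.finrank_le E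
  have hGE : (finrank ℝ G : ℝ) * Pw K₁ D ≤ finrank ℝ E := by
    have e2 : (finrank ℝ G : ℝ) * (1 / β * Pw K₁ D) ≤ finrank ℝ V := (mul_le_mul_of_nonneg_left k1 hG0).trans hG
    have e3 : β * ((finrank ℝ G : ℝ) * (1 / β * Pw K₁ D)) ≤ β * finrank ℝ V := mul_le_mul_of_nonneg_left e2 hβ.le
    have e4 : β * ((finrank ℝ G : ℝ) * (1 / β * Pw K₁ D)) = finrank ℝ G * Pw K₁ D := by field_simp
    rw [e4] at e3
    linarith
  obtain ⟨E', hE'E, hE'dim, hE'p, hE'r⟩ := hpos D hD V p r hp hr E G hEp hEr hGE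
  have hkE' : k ≤ finrank ℝ E' := by
    have : (k : ℝ) ≤ finrank ℝ E' := by nlinarith
    exact_mod_cast this
  obtain ⟨X, Y, hXE, hYE, hXdim, hYdim, hXY⟩ := SFL_split p hp D hD E' (hEp.sub hE'E)
    (k - finrank ℝ G) (finrank ℝ G) (by omega)
  have hXYr : ∀ y ∈ Y, ∀ x ∈ X, r y + r x ≤ B * r (y + x) := by
    intro y hy x hx
    have h1 := (hcomp y (hE'E (hYE hy))).2
    have h2 := (hcomp x (hE'E (hXE hx))).2
    have h3 := (hcomp (y + x) (E.add_mem (hE'E (hYE hy)) (hE'E (hXE hx)))).1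
    have h4 := hXY y hy x hx
    have h5 : D * (p y + p x) ≤ D * (2 * D * (D * r (y + x))) := by
      refine mul_le_mul_of_nonneg_left (h4.trans ?_) (by linarith)
      exact mul_le_mul_of_nonneg_left h3 (by linarith)
    calc r y + r x ≤ D * (p y + p x) := by linarith
      _ ≤ D * (2 * D * (D * r (y + x))) := h5
      _ = B * r (y + x) := by rw [hB]; ring
  have hXYp : ∀ y ∈ Y, ∀ x ∈ X, p y + p x ≤ B * p (y + x) := by
    intro y hy x hx
    exact (hXY y hy x hx).trans (mul_le_mul_of_nonneg_right hDB (apply_nonneg _ _))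
  have hfin := hslf (A * B) hAB1 V p r k hp hr hH G Y X (by omega) (by omega) ?_ ?_
    ((hEp.sub (hXE.trans hE'E)).mono hDAB) ((hEr.sub (hXE.trans hE'E)).mono hDAB)
    ((hEp.sub (hYE.trans hE'E)).mono hDAB)
    (fun y hy => (hcomp y (hE'E (hYE hy))).2.trans (mul_le_mul_of_nonneg_right hDAB (apply_nonneg _ _)))
    (fun y hy => (mul_le_mul_of_nonneg_right k3 (apply_nonneg _ _)).trans (hRG y hy))
  · exact ⟨hfin.1.mono k3, hfin.2.mono k3⟩
  · intro w hw y hy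
    have h1 := hE'p.split w hw y (hYE hy)
    have h2 := hE'r.split w hw y (hYE hy)
    rw [← hA] at h1 h2
    exact ⟨h1.trans (mul_le_mul_of_nonneg_right hAB (apply_nonneg _ _)),
      h2.trans (mul_le_mul_of_nonneg_right hAB (apply_nonneg _ _))⟩
  · intro z hz x hx
    obtain ⟨w, hw, y, hy, rfl⟩ := Submodule.mem_sup.1 hz
    have hyx : y + x ∈ E' := E'.add_mem (hYE hy) (hXE hx)
    have h1 := hE'p.split w hw (y + x) hyx
    have h2 := hE'r.split w hw (y + x) hyx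
    rw [← hA] at h1 h2
    exact ⟨SFL_comb p A B (A * B) hA1 hB1' le_rfl w y x h1 (hXYp y hy x hx),
      SFL_comb r A B (A * B) hA1 hB1' le_rfl w y x h2 (hXYr y hy x hx)⟩

end Pool.HP
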