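import Pool.Agent.Work.MP_3e8c7a_hp.Interface
import Pool.Agent.Work.MP_3e8c7a_h.B_SLF

/-! Block SLFP of THEOREM H with polynomial constants (helper83). -/

set_option autoImplicit false

namespace Pool.HP

open Module Pool.Agent.MP3e8c7a Pool.EH
open scoped RealInnerProductSpace

/-- The explicit constants of `p_SLF`. -/
lemma SLFP_main (hTRF : Pool.EH.Stmt_TRF) (b C C₂ Λ : ℝ) (hb : 1 ≤ b) (hC : 1 ≤ C) (hC₂ : 1 ≤ C₂) (hΛ : 1 ≤ Λ)
    (V : Type) [AddCommGroup V] [Module ℝ V] [FiniteDimensional ℝ V] (p r : Seminorm ℝ V) (k : ℕ)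
    (hp : Def p) (hr : Def r) (hH : Hyp b k p r) (G Y E : Submodule ℝ V) (hGY : finrank ℝ G ≤ finrank ℝ Y)
    (hk : finrank ℝ G + finrank ℝ E = k)
    (hA : ∀ w ∈ G, ∀ y ∈ Y, p w + p y ≤ C₂ * p (w + y) ∧ r w + r y ≤ C₂ * r (w + y))
    (hB : ∀ z ∈ G ⊔ Y, ∀ x ∈ E, p z + p x ≤ C₂ * p (z + x) ∧ r z + r x ≤ C₂ * r (z + x))
    (hEp : Eu C (p.comp E.subtype)) (hEr : Eu C (r.comp E.subtype)) (hYp : Eu C (p.comp Y.subtype))
    (hY : ∀ y ∈ Y, r y ≤ Λ * p y)
    (hG : ∀ y ∈ G, (2 * (2 * C₂ ^ 2 * (2 * b * C * C₂) ^ 2) * Λ * C) * p y ≤ r y) :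
    Eu ((2 * b * C * C₂) * max (2 * ((2 * C₂ ^ 2 * (2 * b * C * C₂) ^ 2) * C) + 1) 2) (p.comp G.subtype) ∧
    Eu ((2 * b * C * C₂) * max (2 * ((2 * C₂ ^ 2 * (2 * b * C * C₂) ^ 2) * C) + 1) 2) (r.comp G.subtype) := by
  set K₁ : ℝ := 2 * b * C * C₂ with hK₁
  set K₃ : ℝ := 2 * C₂ ^ 2 * K₁ ^ 2 with hK₃
  have hK₁1 : 1 ≤ K₁ := by
    have h1 : 1 ≤ b * C := by nlinarith
    have h2 : 1 ≤ b * C * C₂ := by nlinarith
    rw [hK₁]; nlinarith
  have hK₃1 : 1 ≤ K₃ := by
    have h1 : 1 ≤ C₂ ^ 2 := by nlinarith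
    have h2 : 1 ≤ K₁ ^ 2 := by nlinarith
    rw [hK₃]; nlinarith
  set lam : ℝ := 2 * K₃ with hlam
  have hlam0 : 0 < lam := by rw [hlam]; linarith
  set R : ℝ := lam * Λ * C with hR
  have hR1 : 1 ≤ R := by
    have h1 : 1 ≤ Λ * C := by nlinarith
    rw [hR]; nlinarith
  set D₁ : ℝ := max (2 * (K₃ * C) + 1) 2 with hD₁
  have hD₁1 : 1 ≤ D₁ := le_trans (by norm_num) (le_max_right _ _)
  have hC₂0 : 0 < C₂ := by linarith
  have hpG : Def (p.comp G.subtype) := hp.comp _ Subtype.val_injective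
  have hpY : Def (p.comp Y.subtype) := hp.comp _ Subtype.val_injective
  -- the inclusion
  have inc : ∀ w : G, ∀ x ∈ E, p (G.subtype w) + p x ≤ C₂ * p (G.subtype w + x) := fun w x hx =>
    (hB w (Submodule.mem_sup_left w.2) x hx).1
  have inc' : ∀ w : G, ∀ x ∈ E, r (G.subtype w) + r x ≤ C₂ * r (G.subtype w + x) := fun w x hx =>
    (hB w (Submodule.mem_sup_left w.2) x hx).2
  have hstep : ∀ D : ℝ, 1 ≤ D → Eu D (p.comp G.subtype) → Eu (K₃ * C + D / 2) (p.comp G.subtype) := by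
    intro D hD hDE
    obtain ⟨T, hT⟩ := hDE.exists_equiv hpG
    obtain ⟨S, hS⟩ := hYp.exists_equiv hpY
    obtain ⟨U, hU⟩ := SLF_map T S hGY hlam0.le
    let u : G →ₗ[ℝ] V := G.subtype + Y.subtype ∘ₗ U
    have hu : ∀ w, u w = (w : V) + (U w : V) := fun w => rfl
    have hpU : ∀ w, lam * ‖T w‖ ≤ p (U w : V) ∧ p (U w : V) ≤ C * (lam * ‖T w‖) := by
      intro w
      have h1 := hS (U w)
      rw [hU] at h1
      exact h1
    have hpw : ∀ w : G, ‖T w‖ ≤ p (w : V) ∧ p (w : V) ≤ D * ‖T w‖ := fun w => hT w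
    have hlow : ∀ w : G, p (w : V) + p (U w : V) ≤ C₂ * p (u w) := fun w => by
      rw [hu]; exact (hA w w.2 (U w) (U w).2).1
    have hlow' : ∀ w : G, r (w : V) + r (U w : V) ≤ C₂ * r (u w) := fun w => by
      rw [hu]; exact (hA w w.2 (U w) (U w).2).2
    have huinj : Function.Injective u := by
      rw [injective_iff_map_eq_zero]
      intro w hw
      have h1 := hlow w
      rw [hw, map_zero, mul_zero] at h1
      have h2 : p (w : V) = 0 := le_antisymm (by linarith [apply_nonneg p (U w : V)]) (apply_nonneg _ _)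
      exact Subtype.ext (hp _ h2)
    set D' : ℝ := C₂ * (C + D / lam) with hD'
    have hD'1 : 1 ≤ D' := by
      have : 0 ≤ D / lam := by positivity
      rw [hD']; nlinarith
    have hEu1 : Eu D' (p.comp u) := by
      refine ⟨_, (lam / C₂) • T.toLinearMap, fun w => ?_⟩
      have e1 : ‖((lam / C₂) • T.toLinearMap) w‖ = lam / C₂ * ‖T w‖ := by
        show ‖(lam / C₂) • T w‖ = _
        rw [norm_smul, Real.norm_eq_abs, abs_of_pos (by positivity)]
      rw [e1]
      constructor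
      · rw [div_mul_eq_mul_div, div_le_iff₀ hC₂0]
        have h1 := hlow w
        have h2 := (hpU w).1
        have h3 : (p.comp u) w = p (u w) := rfl
        rw [h3]
        linarith [apply_nonneg p (w : V)]
      · calc (p.comp u) w = p ((w : V) + (U w : V)) := rfl
          _ ≤ p (w : V) + p (U w : V) := map_add_le_add p _ _
          _ ≤ D * ‖T w‖ + C * (lam * ‖T w‖) := add_le_add (hpw w).2 (hpU w).2
          _ = D' * (lam / C₂ * ‖T w‖) := by rw [hD']; field_simp; ring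
    have hEu2 : Eu (2 * b * C * C₂ * D') (r.comp u) := by
      refine hTRF V G p r k b C C₂ D' u E hp hr hH hb hC hC₂ hD'1 huinj hk (fun w x hx => ?_) hEp hEu1
      exact (hB (u w) (Submodule.add_mem_sup w.2 (U w).2) x hx).1
    -- r on G
    have hrU : ∀ w : G, r (U w : V) ≤ r (w : V) := by
      intro w
      calc r (U w : V) ≤ Λ * p (U w : V) := hY _ (U w).2
        _ ≤ Λ * (C * (lam * ‖T w‖)) := mul_le_mul_of_nonneg_left (hpU w).2 (by linarith)
        _ = R * ‖T w‖ := by rw [hR]; ring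
        _ ≤ R * p (w : V) := mul_le_mul_of_nonneg_left (hpw w).1 (by linarith)
        _ ≤ r (w : V) := hG _ w.2
    have hEu3 : Eu (2 * C₂ * (2 * b * C * C₂ * D')) (r.comp G.subtype) := by
      refine hEu2.equiv (by norm_num) hC₂0.le (fun w => ?_) (fun w => ?_)
      · show r ((w : V) + (U w : V)) ≤ 2 * r (w : V)
        have h1 := map_add_le_add r (w : V) (U w : V)
        have h2 := hrU w
        linarith
      · show r (w : V) ≤ C₂ * r (u w)
        have h1 := hlow' w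
        have h2 := apply_nonneg r (U w : V)
        linarith
    have hEu4 := hTRF V G r p k b C C₂ (2 * C₂ * (2 * b * C * C₂ * D')) G.subtype E hr hp
      (hH.symm (by linarith)) hb hC hC₂ (by
        have h1 : 1 ≤ K₁ * D' := by nlinarith
        have h2 : 1 ≤ 2 * C₂ := by linarith
        have e : 2 * C₂ * (2 * b * C * C₂ * D') = 2 * C₂ * (K₁ * D') := by rw [hK₁]
        rw [e]; nlinarith) Subtype.val_injective hk inc' hEr hEu3
    refine hEu4.mono (le_of_eq ?_)
    have e : 2 * b * C * C₂ * (2 * C₂ * (2 * b * C * C₂ * D')) = K₃ * (C + D / lam) := by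
      rw [hK₃, hK₁, hD']; ring
    rw [e, hlam]
    have : K₃ ≠ 0 := by positivity
    field_simp
  have hfin : Eu D₁ (p.comp G.subtype) := SLF_inf (SLF_exists hpG) hstep
  refine ⟨hfin.mono (by nlinarith), ?_⟩
  exact hTRF V G p r k b C C₂ D₁ G.subtype E hp hr hH hb hC hC₂ hD₁1 Subtype.val_injective hk inc hEp hfin


theorem p_SLFP (hTRF : Pool.EH.Stmt_TRF) : Stmt_SLFP := by
  intro b hb
  obtain ⟨K, hK, hPB⟩ : PB fun D =>
      (2 * (2 * D ^ 2 * (2 * b * D * D) ^ 2) * D * D) +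
      ((2 * b * D * D) * max (2 * ((2 * D ^ 2 * (2 * b * D * D) ^ 2) * D) + 1) 2) := by
    have hb0 : 0 < b := by linarith
    have h2bDD : PB fun D => 2 * b * D * D := by
      refine ((PB.const (2 * b)).mul PB.id (fun D hD => by linarith)).mul PB.id (fun D hD => by linarith)
    have h2bDD0 : ∀ D : ℝ, 1 ≤ D → 0 ≤ 2 * b * D * D := fun D hD => by positivity
    have hK3 : PB fun D => 2 * D ^ 2 * (2 * b * D * D) ^ 2 := by
      refine ((PB.const 2).mul (PB.id.pow (fun D hD => by linarith) 2) (fun D hD => by positivity)).mul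
        (h2bDD.pow h2bDD0 2) (fun D hD => by positivity)
    refine PB.add ?_ ?_
    · refine (((PB.const 2).mul hK3 (fun D hD => by positivity)).mul PB.id (fun D hD => by linarith)).mul PB.id
        (fun D hD => by linarith)
    · refine h2bDD.mul ?_ (fun D hD => ?_)
      · refine PB.max ?_ (PB.const 2)
        refine PB.add ?_ (PB.const 1)
        refine (PB.const 2).mul (hK3.mul PB.id (fun D hD => by linarith)) (fun D hD => ?_)
        have hD0 : 0 < D := by linarith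
        positivity
      · exact le_trans (by norm_num) (le_max_right _ _)
  refine ⟨K, hK, fun D hD V _ _ _ p r k hp hr hH G Y E hGY hk hA hB hEp hEr hYp hY hG => ?_⟩
  have hD0 : 0 < D := by linarith
  have hb0 : 0 < b := by linarith
  have h0 := hPB D hD
  have h1 : 0 ≤ 2 * (2 * D ^ 2 * (2 * b * D * D) ^ 2) * D * D := by positivity
  have h2 : 0 ≤ (2 * b * D * D) * max (2 * ((2 * D ^ 2 * (2 * b * D * D) ^ 2) * D) + 1) 2 :=
    mul_nonneg (by positivity) (le_trans (by norm_num) (le_max_right _ _))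
  have h3 := SLFP_main hTRF b D D D hb hD hD hD V p r k hp hr hH G Y E hGY hk hA hB hEp hEr hYp hY
    (fun y hy => (mul_le_mul_of_nonneg_right (by linarith) (apply_nonneg p y)).trans (hG y hy))
  exact ⟨h3.1.mono (by linarith), h3.2.mono (by linarith)⟩

end Pool.HP
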