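import Pool.Agent.Work.MP_3e8c7a_hp.Interface

/-! Block STPP of H-POLY (helper23). -/

set_option autoImplicit false

namespace Pool.HP

open Module Pool.Agent.MP3e8c7a Pool.EH

/-- The constant of LARP. -/
lemma STPP_f1 {K₁ : ℕ} (hK₁ : 1 ≤ K₁) {α : ℝ} (hα : 0 < α) (hα1 : α ≤ 1) :
    PB (fun D => 8 / α * Pw K₁ D ^ 2) ∧ ∀ D : ℝ, 1 ≤ D → 1 ≤ 8 / α * Pw K₁ D ^ 2 ∧ Pw K₁ D ≤ 8 / α * Pw K₁ D ^ 2 := by
  refine ⟨(PB.const _).mul ((PB.Pw hK₁).pow (fun D hD => (Pw_pos hK₁ hD).le) 2)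
    (fun D hD => by positivity), fun D hD => ?_⟩
  have h1 : 1 ≤ Pw K₁ D := one_le_Pw hK₁ hD
  have h2 : 8 ≤ 8 / α := by
    rw [le_div_iff₀ hα]
    linarith
  have h3 : Pw K₁ D ≤ Pw K₁ D ^ 2 := by nlinarith
  have h4 : 8 * Pw K₁ D ^ 2 ≤ 8 / α * Pw K₁ D ^ 2 := mul_le_mul_of_nonneg_right h2 (by positivity)
  constructor <;> nlinarith

/-- The constant of JOIP. -/
lemma STPP_f2 {K₁ K₃ : ℕ} (hK₁ : 1 ≤ K₁) (hK₃ : 1 ≤ K₃) :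
    PB (fun D => 2 * Pw K₃ (Pw K₁ D) ^ 4 * Pw K₁ D) ∧ ∀ D : ℝ, 1 ≤ D → 1 ≤ Pw K₃ (Pw K₁ D) ∧
      Pw K₃ (Pw K₁ D) ≤ 2 * Pw K₃ (Pw K₁ D) ^ 4 * Pw K₁ D := by
  have hc : PB (fun D => Pw K₃ (Pw K₁ D)) := (PB.Pw hK₁).comp (fun D hD => one_le_Pw hK₁ hD) hK₃
  have h0 : ∀ D : ℝ, 1 ≤ D → 1 ≤ Pw K₃ (Pw K₁ D) := fun D hD => one_le_Pw hK₃ (one_le_Pw hK₁ hD)
  refine ⟨((PB.const 2).mul (hc.pow (fun D hD => by linarith [h0 D hD]) 4) (fun D hD => by positivity)).mul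
    (PB.Pw hK₁) (fun D hD => (Pw_pos hK₁ hD).le), fun D hD => ⟨h0 D hD, ?_⟩⟩
  have h1 : 1 ≤ Pw K₁ D := one_le_Pw hK₁ hD
  have h2 : 1 ≤ Pw K₃ (Pw K₁ D) := h0 D hD
  have h3 : Pw K₃ (Pw K₁ D) ≤ Pw K₃ (Pw K₁ D) ^ 4 := le_self_pow₀ h2 (by norm_num)
  nlinarith

theorem p_STPP (hDET : Pool.EH.Stmt_DET) (hJOIP : Stmt_JOIP) (hLARP : Stmt_LARP) (hONEP : Stmt_ONEP)
    (hLOCP : Stmt_LOCP) : Stmt_STPP := by
  classical
  intro α β b hα hβ hβ1 hb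
  obtain ⟨K₁, hK₁, hone⟩ := hONEP β b hβ hβ1 hb
  obtain ⟨K₂, hK₂, hlar⟩ := hLARP
  obtain ⟨K₃, hK₃, hloc⟩ := hLOCP
  obtain ⟨K₄, hK₄, hjoi⟩ := hJOIP
  obtain ⟨α', hα'⟩ : ∃ α', min 1 α = α' := ⟨_, rfl⟩
  have hα0 : 0 < α' := by rw [← hα']; exact lt_min one_pos hα
  have hα1 : α' ≤ 1 := by rw [← hα']; exact min_le_left _ _
  have hαα : α' ≤ α := by rw [← hα']; exact min_le_right _ _
  obtain ⟨hf1, hg1⟩ := STPP_f1 hK₁ hα0 hα1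
  obtain ⟨hf2, hg2⟩ := STPP_f2 hK₁ hK₃
  have hA : PB (fun D => Pw K₂ (8 / α' * Pw K₁ D ^ 2)) := hf1.comp (fun D hD => (hg1 D hD).1) hK₂
  have hA0 : ∀ D : ℝ, 1 ≤ D → 1 ≤ Pw K₂ (8 / α' * Pw K₁ D ^ 2) := fun D hD => one_le_Pw hK₂ (hg1 D hD).1
  have hB : PB (fun D => Pw K₄ (2 * Pw K₃ (Pw K₁ D) ^ 4 * Pw K₁ D)) :=
    hf2.comp (fun D hD => (hg2 D hD).1.trans (hg2 D hD).2) hK₄
  have hB0 : ∀ D : ℝ, 1 ≤ D → 1 ≤ Pw K₄ (2 * Pw K₃ (Pw K₁ D) ^ 4 * Pw K₁ D) :=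
    fun D hD => one_le_Pw hK₄ ((hg2 D hD).1.trans (hg2 D hD).2)
  obtain ⟨K, hK, hKall⟩ := ((hf1.add (hA.mul hA (fun D hD => by linarith [hA0 D hD]))).add hB)
  refine ⟨K, hK, fun D hD => ?_⟩
  have hall := hKall D hD
  beta_reduce at hall
  have hA1 := hA0 D hD
  have hB1 := hB0 D hD
  obtain ⟨hE1, hE2⟩ := hg1 D hD
  obtain ⟨hE3, hE4⟩ := hg2 D hD
  have hone := hone D hD
  have hD1 : 1 ≤ Pw K₁ D := one_le_Pw hK₁ hD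
  obtain ⟨D₁, hD₁⟩ : ∃ D₁, Pw K₁ D = D₁ := ⟨_, rfl⟩
  rw [hD₁] at hall hA1 hB1 hE1 hE2 hE3 hE4 hD1
  simp only [hD₁] at hone
  obtain ⟨D₂, hD₂⟩ : ∃ D₂, 8 / α' * D₁ ^ 2 = D₂ := ⟨_, rfl⟩
  rw [hD₂] at hall hA1 hE1 hE2
  obtain ⟨D₃, hD₃⟩ : ∃ D₃, Pw K₃ D₁ = D₃ := ⟨_, rfl⟩
  rw [hD₃] at hall hB1 hE3 hE4
  obtain ⟨A, hAA⟩ : ∃ A, Pw K₂ D₂ = A := ⟨_, rfl⟩
  rw [hAA] at hall hA1
  have hA2 : A ≤ A * A := by nlinarith
  intro V _ _ _ p r k hp hr H hn hαk E hE hEp hEr hE22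
  obtain ⟨n, hnV⟩ : ∃ n, finrank ℝ V = n := ⟨_, rfl⟩
  have hn' : Pw K D ≤ n := by rw [hnV] at hn; exact hn
  have hnD₂ : D₂ ≤ n := by linarith
  have hnA : A ≤ n := by linarith
  have hn0 : (0 : ℝ) ≤ n := Nat.cast_nonneg _
  have hD10 : 0 < D₁ := by linarith
  have hnn : 8 * D₁ ^ 2 ≤ α' * n := by
    rw [← hD₂, div_mul_eq_mul_div, div_le_iff₀ hα0] at hnD₂
    linarith
  obtain ⟨m₁, hm₁⟩ : ∃ m₁, ⌊α' * n / (2 * D₁)⌋₊ = m₁ := ⟨_, rfl⟩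
  have hm₁a : (m₁ : ℝ) * (2 * D₁) ≤ α' * n := by
    rw [← le_div_iff₀ (by positivity), ← hm₁]
    exact Nat.floor_le (by positivity)
  have hm₁b : α' * n < (m₁ + 1) * (2 * D₁) := by
    rw [← div_lt_iff₀ (by positivity), ← hm₁]
    exact Nat.lt_floor_add_one _
  have hm₁0 : (0 : ℝ) ≤ m₁ := Nat.cast_nonneg _
  have hm₁k : m₁ ≤ k := by
    have h1 : (m₁ : ℝ) ≤ k := by
      rw [hnV] at hαk
      have h2 : (m₁ : ℝ) ≤ m₁ * (2 * D₁) := by nlinarith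
      have h3 : α' * n ≤ α * n := mul_le_mul_of_nonneg_right hαα hn0
      linarith
    exact_mod_cast h1
  let P : ℕ → Prop := fun m => ∃ G : Submodule ℝ V, finrank ℝ G = m ∧
    ((∀ y ∈ G, D₁ * p y ≤ r y) ∨ ∀ y ∈ G, D₁ * r y ≤ p y)
  have hP0 : P 0 := by
    refine ⟨⊥, finrank_bot ℝ V, Or.inl fun y hy => ?_⟩
    rw [(Submodule.mem_bot ℝ).1 hy, map_zero, map_zero, mul_zero]
  obtain ⟨m, hm, hPm, hmax⟩ : ∃ m, m ≤ m₁ ∧ P m ∧ ∀ j, m < j → j ≤ m₁ → ¬ P j :=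
    ⟨Nat.findGreatest P m₁, Nat.findGreatest_le _, Nat.findGreatest_spec (Nat.zero_le _) hP0,
      fun j h1 h2 => Nat.findGreatest_is_greatest h1 h2⟩
  obtain ⟨G, hG, hGd⟩ := hPm
  have hmm : (m : ℝ) ≤ m₁ := by exact_mod_cast hm
  have hlocal : ∀ F : Submodule ℝ V, (finrank ℝ F : ℝ) * D₁ ≤ m →
      Eu D₁ (p.comp F.subtype) ∧ Eu D₁ (r.comp F.subtype) := by
    intro F hF
    refine hone V p r k hp hr H E G hE ?_ ?_ hEp hEr hE22 hGd F ?_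
    · rw [hG, hnV]
      have h1 : (m : ℝ) * D₁ ≤ m₁ * D₁ := mul_le_mul_of_nonneg_right hmm hD10.le
      have h2 : (m₁ : ℝ) * D₁ ≤ m₁ * (2 * D₁) := by nlinarith
      have h3 : α' * n ≤ 1 * n := mul_le_mul_of_nonneg_right hα1 hn0
      linarith
    · rw [hG]; exact hm.trans hm₁k
    · rw [hG]; exact hF
  rcases hm.eq_or_lt with heq | hlt
  · -- case (i)
    obtain ⟨a, ha⟩ : ∃ a, ⌊(m : ℝ) / D₁⌋₊ = a := ⟨_, rfl⟩
    have ha1 : (a : ℝ) * D₁ ≤ m := by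
      rw [← le_div_iff₀ hD10, ← ha]
      exact Nat.floor_le (by positivity)
    have ha2 : (m : ℝ) < (a + 1) * D₁ := by
      rw [← div_lt_iff₀ hD10, ← ha]
      exact Nat.lt_floor_add_one _
    have ha0 : (0 : ℝ) ≤ a := Nat.cast_nonneg _
    have hLoc : ∀ N : Seminorm ℝ V, (∀ F : Submodule ℝ V, (finrank ℝ F : ℝ) * D₁ ≤ m → Eu D₁ (N.comp F.subtype)) →
        Loc D₂ a N := by
      intro N hN
      have h1 : Loc D₁ a N := by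
        intro F hF
        refine hN F ?_
        have h2 : (finrank ℝ F : ℝ) ≤ a := by exact_mod_cast hF
        have h3 : (finrank ℝ F : ℝ) * D₁ ≤ a * D₁ := mul_le_mul_of_nonneg_right h2 hD10.le
        linarith
      exact h1.mono hE2 le_rfl
    have hc : (finrank ℝ V : ℝ) ≤ D₂ * a := by
      rw [hnV, ← hD₂, div_mul_eq_mul_div, div_mul_eq_mul_div, le_div_iff₀ hα0]
      rw [heq] at ha2
      have h1 : α' * n < ((a + 1) * D₁ + 1) * (2 * D₁) := by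
        refine hm₁b.trans_le (mul_le_mul_of_nonneg_right (by linarith) (by positivity))
      have h2 : ((a + 1) * D₁ + 1) * (2 * D₁) ≤ 2 * a * D₁ ^ 2 + 4 * D₁ ^ 2 := by nlinarith
      have h3 : 0 ≤ a * D₁ ^ 2 := by positivity
      nlinarith
    have hnA' : Pw K₂ D₂ ≤ finrank ℝ V := by rw [hAA, hnV]; exact hnA
    have e1 := hlar D₂ hE1 V p a hp hnA' hc (hLoc p fun F hF => (hlocal F hF).1)
    have e2 := hlar D₂ hE1 V r a hr hnA' hc (hLoc r fun F hF => (hlocal F hF).2)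
    rw [hAA] at e1 e2
    exact (e1.iso hp hr hA1 e2 rfl).mono (by linarith)
  · -- case (ii)
    have hnP : ¬ P (m + 1) := hmax (m + 1) (Nat.lt_succ_self m) hlt
    have hex1 : ∀ G : Submodule ℝ V, finrank ℝ G = m + 1 → ∃ y ∈ G, r y < D₁ * p y := by
      intro G' hG'
      by_contra h
      push Not at h
      exact hnP ⟨G', hG', Or.inl h⟩
    have hex2 : ∀ G : Submodule ℝ V, finrank ℝ G = m + 1 → ∃ y ∈ G, p y < D₁ * r y := by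
      intro G' hG'
      by_contra h
      push Not at h
      exact hnP ⟨G', hG', Or.inr h⟩
    have hL3p := hloc D₁ hD1 V p m hp fun F hF => (hlocal F hF).1
    have hL3r := hloc D₁ hD1 V r m hr fun F hF => (hlocal F hF).2
    rw [hD₃] at hL3p hL3r
    have hle : 2 * m + 2 ≤ (4 * m + 2) * (4 * m + 2) + (4 * m + 2) + 1 := by nlinarith
    obtain ⟨X₁, hX₁, hX₁'⟩ := hDET V p r D₃ D₁ m hp hr hE3 hD10 (hL3p.mono le_rfl hle)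
      (hL3r.mono le_rfl hle) hex1
    obtain ⟨X₂, hX₂, hX₂'⟩ := hDET V r p D₃ D₁ m hr hp hE3 hD10 (hL3r.mono le_rfl hle)
      (hL3p.mono le_rfl hle) hex2
    have hdim := Submodule.finrank_sup_add_finrank_inf_eq X₁ X₂
    have hsup : finrank ℝ (X₁ ⊔ X₂ : Submodule ℝ V) ≤ finrank ℝ V := Submodule.finrank_le _
    have hinf : finrank ℝ (X₁ ⊓ X₂ : Submodule ℝ V) ≤ finrank ℝ V := Submodule.finrank_le _
    obtain ⟨n', hn'⟩ := Nat.exists_eq_add_of_le hinf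
    have hn'N : n' ≤ 4 * m + 2 := by omega
    have hle2 : n' * n' + n' + 1 ≤ (4 * m + 2) * (4 * m + 2) + (4 * m + 2) + 1 := by
      have := Nat.mul_le_mul hn'N hn'N
      omega
    refine (hjoi (2 * D₃ ^ 4 * D₁) (hE3.trans hE4) V p r n' (X₁ ⊓ X₂) hp hr hn'.symm (hL3p.mono hE4 hle2)
      (hL3r.mono hE4 hle2) ?_).mono ?_
    · intro x hx
      exact ⟨hX₂' x hx.2, hX₁' x hx.1⟩
    · linarith

end Pool.HP
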