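import Pool.Agent.Work.MP_3e8c7a_hp.Interface
import Pool.Agent.Work.MP_3e8c7a_h.B_STZ

set_option autoImplicit false

/-! # Block STZP: the other norm is Euclidean too -/

namespace Pool.HP

open Module Pool.Agent.MP3e8c7a Pool.EH

/-- Block STZP. -/
theorem p_STZP (hLARP : Stmt_LARP) : Stmt_STZP := by
  intro α b hα hb
  obtain ⟨K₁, hK₁, hL⟩ := hLARP
  have hα' : 0 < 1 / α := one_div_pos.2 hα
  have hD' : ∀ D : ℝ, 1 ≤ D → 1 ≤ b * D + 1 / α := fun D hD => by nlinarith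
  have hg : PB fun D => b * D + 1 / α :=
    ((PB.const b).mul PB.id fun D hD => by linarith).add (PB.const (1 / α))
  have hf : PB fun D => Pw K₁ (b * D + 1 / α) := hg.comp hD' hK₁
  have hh : PB fun D => Pw K₁ (b * D + 1 / α) + Pw K₁ (b * D + 1 / α) * (1 / α) :=
    hf.add (hf.mul (PB.const (1 / α)) fun D _ => hα'.le)
  obtain ⟨K, hK, hB⟩ := hh
  refine ⟨K, hK, ?_⟩
  intro D hD V _ _ _ p r k E hp hr hyp hn hk hkE hEu
  have hBD : Pw K₁ (b * D + 1 / α) + Pw K₁ (b * D + 1 / α) * (1 / α) ≤ Pw K D := hB D hD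
  have hfpos : 0 < Pw K₁ (b * D + 1 / α) := Pw_pos hK₁ (hD' D hD)
  have hfle : Pw K₁ (b * D + 1 / α) ≤ Pw K D := by
    have h1 : 0 < Pw K₁ (b * D + 1 / α) * (1 / α) := mul_pos hfpos hα'
    linarith
  have hfα : Pw K₁ (b * D + 1 / α) ≤ α * finrank ℝ V := by
    have h1 : Pw K₁ (b * D + 1 / α) * (1 / α) ≤ finrank ℝ V := by linarith
    have h2 := mul_le_mul_of_nonneg_left h1 hα.le
    have h3 : α * (Pw K₁ (b * D + 1 / α) * (1 / α)) = Pw K₁ (b * D + 1 / α) := by
      field_simp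
    linarith
  have hkE' : (k : ℝ) ≤ finrank ℝ E := by exact_mod_cast hkE
  have hEV : (finrank ℝ E : ℝ) ≤ finrank ℝ V := by exact_mod_cast Submodule.finrank_le E
  have hk0 : (0 : ℝ) ≤ k := Nat.cast_nonneg k
  have hEk : (finrank ℝ E : ℝ) ≤ (b * D + 1 / α) * k := by
    have h1 : (finrank ℝ V : ℝ) ≤ 1 / α * k := by
      rw [one_div, ← div_eq_inv_mul, le_div_iff₀ hα]
      linarith
    have h2 : 0 ≤ b * D * k := by positivity
    nlinarith
  refine (hL (b * D + 1 / α) (hD' D hD) E (r.comp E.subtype) k (hr.comp _ Subtype.val_injective)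
    (by linarith) hEk ?_).mono hfle
  intro F hF
  obtain ⟨F', hFF, hF'⟩ := STZ_super F (k - finrank ℝ F) (by omega)
  have hF'k : finrank ℝ F' = k := by omega
  have hinj : Function.Injective (E.subtype ∘ₗ F'.subtype) :=
    Subtype.val_injective.comp Subtype.val_injective
  have h9 : Iso b (p.comp (E.subtype ∘ₗ F'.subtype)) (r.comp (E.subtype ∘ₗ F'.subtype)) :=
    hyp.inj _ hinj hF'k
  have h10 : Eu D (p.comp (E.subtype ∘ₗ F'.subtype)) := hEu.comp F'.subtype
  have h11 : Eu (b * D) (r.comp (E.subtype ∘ₗ F'.subtype)) := STZ_iso (by linarith) h9 h10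
  have h12 : Eu (b * D) ((r.comp E.subtype).comp F'.subtype) := h11
  exact (h12.sub hFF).mono (by linarith)

end Pool.HP
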