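import Pool.Agent.Work.MP_3e8c7a_hp.B_PO1P
import Pool.Agent.Work.MP_3e8c7a_hp.B_POSP
import Pool.Agent.Work.MP_3e8c7a_hp.B_SCLP
import Pool.Agent.Work.MP_3e8c7a_hp.B_LOBP
import Pool.Agent.Work.MP_3e8c7a_hp.B_GAPP
import Pool.Agent.Work.MP_3e8c7a_hp.B_SLFP
import Pool.Agent.Work.MP_3e8c7a_hp.B_JOIP
import Pool.Agent.Work.MP_3e8c7a_hp.B_LARP
import Pool.Agent.Work.MP_3e8c7a_hp.B_STZP
import Pool.Agent.Work.MP_3e8c7a_hp.B_GPLP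
import Pool.Agent.Work.MP_3e8c7a_hp.B_SFLP
import Pool.Agent.Work.MP_3e8c7a_hp.B_ONEP
import Pool.Agent.Work.MP_3e8c7a_hp.B_LOCP
import Pool.Agent.Work.MP_3e8c7a_hp.B_STPP
import Pool.Agent.Work.MP_3e8c7a_hp.B_MAIP
import Pool.Agent.Work.MP_3e8c7a_un.Final

/-!
# MP_3e8c7a_an, THEOREM H with polynomial constants: assembly, and THEOREM UN
-/

set_option autoImplicit false

namespace Pool.HP

open Module Pool.Agent.MP3e8c7a Pool.EH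

theorem q_PO1P : Stmt_PO1P := p_PO1P q_NET q_RND

theorem q_POSP : Stmt_POSP := p_POSP q_PO1P

theorem q_SCLP : Stmt_SCLP := p_SCLP q_TYL q_TYM q_ORT q_KWA

theorem q_LOBP : Stmt_LOBP := p_LOBP

theorem q_GAPP : Stmt_GAPP := p_GAPP q_TRF

theorem q_SLFP : Stmt_SLFP := p_SLFP q_TRF

theorem q_JOIP : Stmt_JOIP := p_JOIP q_LIF

theorem q_LARP : Stmt_LARP := p_LARP q_SCLP

theorem q_STZP : Stmt_STZP := p_STZP q_LARP

theorem q_GPLP : Stmt_GPLP := p_GPLP q_POSP q_GAPP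

theorem q_SFLP : Stmt_SFLP := p_SFLP q_POSP q_SLFP

theorem q_ONEP : Stmt_ONEP := p_ONEP q_GPLP q_SFLP

theorem q_LOCP : Stmt_LOCP := p_LOCP q_SCLP q_LOBP

theorem q_STPP : Stmt_STPP := p_STPP q_DET q_JOIP q_LARP q_ONEP q_LOCP

theorem q_MAIP : Stmt_MAIP := p_MAIP q_LOBP q_LARP q_STZP q_GPLP q_STPP q_SPL

/-- H-POLY. -/
theorem hpo : Pool.UN.Stmt_HPO := q_MAIP

end Pool.HP

namespace Pool.UN

open Module Pool.Agent.MP3e8c7a Pool.Agent.MP3e8c7as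

/-- **THEOREM UN** for bodies, unconditional. -/
theorem theorem_UN (α ε b M δ : ℝ) (hα : 0 < α) (hα1 : α < 1) (hε : 0 < ε) (hM : 1 ≤ M)
    (hδ : 0 < δ) (hδ4 : δ ≤ 1 / 4) : ∃ C : ℝ, 1 ≤ C ∧ ∀ n : ℕ, 0 < n →
      ∀ K L : Set (Fin n → ℝ), IsBody K → IsBody L → SectionsClose ⌈α * n⌉₊ b K L →
      ∀ (N : ℕ) (i : (Fin N → ℝ) →ₗ[ℝ] (Fin n → ℝ)) (U : Set (Fin N → ℝ)), (α + ε) * n ≤ N →
      (UncSection M K i U ∨ UncSection M L i U) →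
      dBM K L ≤ ENNReal.ofReal (C * (n : ℝ) ^ δ) ∧
        ((GeomClose C K L ∧ dBM K L ≤ ENNReal.ofReal C) ∨ LowerEst C (1 / 2 - δ) U) :=
  unconditional Pool.HP.hpo α ε b M δ hα hα1 hε hM hδ hδ4

end Pool.UN
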