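import Pool.Agent.Work.MP_3e8c7a_hp.Interface
import Pool.Agent.Work.MP_3e8c7a_h.B_GPL

/-! Block GPLP (helper87). -/

set_option autoImplicit false

namespace Pool.HP

open Module Pool.Agent.MP3e8c7a Pool.EH

theorem p_GPLP (hPOS : Stmt_POSP) (hGAP : Stmt_GAPP) : Stmt_GPLP := by
  intro β b hβ hβ1 hb
  obtain ⟨K₁, hK₁, hpos1⟩ := hPOS β hβ hβ1
  obtain ⟨K₂, hK₂, hpos2⟩ := hPOS (1 / 2) (by norm_num) (by norm_num)
  obtain ⟨K₃, hK₃, hgap⟩ := hGAP b hb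
  have hC₂PB : PB fun D => (2 * Pw K₁ D + 1) + (2 * Pw K₂ D + 1) + D :=
    ((((PB.const 2).mul (PB.Pw hK₁) fun D hD => (Pw_pos hK₁ hD).le).add (PB.const 1)).add
      (((PB.const 2).mul (PB.Pw hK₂) fun D hD => (Pw_pos hK₂ hD).le).add (PB.const 1))).add PB.id
  have hC₂1 : ∀ D : ℝ, 1 ≤ D → 1 ≤ (2 * Pw K₁ D + 1) + (2 * Pw K₂ D + 1) + D := by
    intro D hD
    have h1 := Pw_pos hK₁ hD
    have h2 := Pw_pos hK₂ hD
    linarith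
  obtain ⟨K, hK, hKf⟩ : PB fun D => 3 / β * Pw K₁ D + 2 * Pw K₂ D +
      Pw K₃ ((2 * Pw K₁ D + 1) + (2 * Pw K₂ D + 1) + D) + 2 :=
    ((((PB.const (3 / β)).mul (PB.Pw hK₁) fun D hD => (Pw_pos hK₁ hD).le).add
      ((PB.const 2).mul (PB.Pw hK₂) fun D hD => (Pw_pos hK₂ hD).le)).add (hC₂PB.comp hC₂1 hK₃)).add (PB.const 2)
  refine ⟨K, hK, ?_⟩
  intro D hD V _ _ _ p r k μ s hp hr hH E Y Y' hE hY hY' hμ hμk hEp hEr hYp hYr hY'p hY'r hs h1 h2 F hF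
  have hKD := hKf D hD
  have hC₂D := hC₂1 D hD
  simp only at hKD
  set C₂ : ℝ := (2 * Pw K₁ D + 1) + (2 * Pw K₂ D + 1) + D with hC₂
  have q1 : 0 < Pw K₁ D := Pw_pos hK₁ hD
  have q2 : 0 < Pw K₂ D := Pw_pos hK₂ hD
  have q3 : 0 < Pw K₃ C₂ := Pw_pos hK₃ hC₂D
  have q0 : 0 < 3 / β * Pw K₁ D := by positivity
  have k1 : 3 / β * Pw K₁ D ≤ Pw K D := by linarith
  have k2 : 2 * Pw K₂ D ≤ Pw K D := by linarith
  have k3 : Pw K₃ C₂ ≤ Pw K D := by linarith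
  have k4 : 2 ≤ Pw K D := by linarith
  have hDC : D ≤ C₂ := by rw [hC₂]; linarith
  have hμ0 : (0 : ℝ) ≤ μ := Nat.cast_nonneg _
  have hF0 : (0 : ℝ) ≤ finrank ℝ F := Nat.cast_nonneg _
  have hn0 : (0 : ℝ) ≤ finrank ℝ V := Nat.cast_nonneg _
  have hF2 : (finrank ℝ F : ℝ) ≤ μ / 2 := by nlinarith
  have hFμ : finrank ℝ F ≤ μ := by
    have : (finrank ℝ F : ℝ) ≤ μ := by linarith
    exact_mod_cast this
  -- position with respect to `E`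
  have hdim : finrank ℝ ((F ⊔ Y) ⊔ Y' : Submodule ℝ V) ≤ 3 * μ := by
    have e1 := Submodule.finrank_add_le_finrank_add_finrank (F ⊔ Y) Y'
    have e2 := Submodule.finrank_add_le_finrank_add_finrank F Y
    omega
  have hEn : (finrank ℝ E : ℝ) ≤ finrank ℝ V := by exact_mod_cast Submodule.finrank_le E
  have hk0 : (0 : ℝ) ≤ k := Nat.cast_nonneg _
  have hdim' : (finrank ℝ ((F ⊔ Y) ⊔ Y' : Submodule ℝ V) : ℝ) * Pw K₁ D ≤ finrank ℝ E := by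
    have e1 : (finrank ℝ ((F ⊔ Y) ⊔ Y' : Submodule ℝ V) : ℝ) ≤ 3 * μ := by exact_mod_cast hdim
    have e2 : (μ : ℝ) * (3 / β * Pw K₁ D) ≤ finrank ℝ V := (mul_le_mul_of_nonneg_left k1 hμ0).trans hμ
    have e3 : β * ((μ : ℝ) * (3 / β * Pw K₁ D)) ≤ β * finrank ℝ V := mul_le_mul_of_nonneg_left e2 hβ.le
    have e4 : β * ((μ : ℝ) * (3 / β * Pw K₁ D)) = 3 * μ * Pw K₁ D := by field_simp
    calc (finrank ℝ ((F ⊔ Y) ⊔ Y' : Submodule ℝ V) : ℝ) * Pw K₁ D ≤ 3 * μ * Pw K₁ D :=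
          mul_le_mul_of_nonneg_right e1 q1.le
      _ ≤ β * finrank ℝ V := by rw [← e4]; exact e3
      _ ≤ finrank ℝ E := by linarith
  obtain ⟨E', hE'E, hE'dim, hE'p, hE'r⟩ := hpos1 D hD V p r hp hr E ((F ⊔ Y) ⊔ Y') hEp hEr hdim'
  have hkE' : k ≤ finrank ℝ E' := by
    have : (k : ℝ) ≤ finrank ℝ E' := by nlinarith
    exact_mod_cast this
  have hFk : finrank ℝ F ≤ k := hFμ.trans hμk
  obtain ⟨E'', hE''E', hE''dim⟩ := GPL_sub E' (d := k - finrank ℝ F) (by omega)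
  -- halves of `Y`, `Y'`
  have half : ∀ Z : Submodule ℝ V, finrank ℝ Z = μ → Eu D (p.comp Z.subtype) → Eu D (r.comp Z.subtype) →
      ∃ Z' : Submodule ℝ V, Z' ≤ Z ∧ finrank ℝ F ≤ finrank ℝ Z' ∧ Pos (Pw K₂ D) p F Z' ∧ Pos (Pw K₂ D) r F Z' := by
    intro Z hZ hZp hZr
    obtain ⟨Z', hZ'Z, hZ'dim, hZ'p, hZ'r⟩ := hpos2 D hD V p r hp hr Z F hZp hZr (by
      rw [hZ]
      refine (mul_le_mul_of_nonneg_left ?_ hF0).trans hF
      linarith)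
    refine ⟨Z', hZ'Z, ?_, hZ'p, hZ'r⟩
    have : (finrank ℝ F : ℝ) ≤ finrank ℝ Z' := by
      rw [hZ] at hZ'dim
      linarith
    exact_mod_cast this
  obtain ⟨Y₁, hY₁, hFY₁, hY₁p, hY₁r⟩ := half Y hY hYp hYr
  obtain ⟨Y₁', hY₁', hFY₁', hY₁'p, hY₁'r⟩ := half Y' hY' hY'p hY'r
  have up1 : ∀ {x : ℝ}, 0 ≤ x → (2 * Pw K₁ D + 1) * x ≤ C₂ * x := by
    intro x hx
    exact mul_le_mul_of_nonneg_right (by rw [hC₂]; linarith) hx
  have up2 : ∀ {x : ℝ}, 0 ≤ x → (2 * Pw K₂ D + 1) * x ≤ C₂ * x := by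
    intro x hx
    exact mul_le_mul_of_nonneg_right (by rw [hC₂]; linarith) hx
  have hfin := hgap C₂ hC₂D V p r k s hp hr hH F Y₁ Y₁' E'' hFY₁ hFY₁' (by omega) ?_ ?_ ?_ ?_
    ((hEp.sub (hE''E'.trans hE'E)).mono hDC)
    ((hEr.sub (hE''E'.trans hE'E)).mono hDC) ((hYp.sub hY₁).mono hDC) ((hYr.sub hY₁).mono hDC)
    ((hY'p.sub hY₁').mono hDC) hs
    (fun y hy => ?_) (fun y hy => h2 y (hY₁' hy))
  · exact ⟨hfin.1.mono k3, hfin.2.mono k3⟩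
  · intro w hw y hy
    exact ⟨(hY₁p.split w hw y hy).trans (up2 (apply_nonneg _ _)),
      (hY₁r.split w hw y hy).trans (up2 (apply_nonneg _ _))⟩
  · intro w hw y hy
    exact ⟨(hY₁'p.split w hw y hy).trans (up2 (apply_nonneg _ _)),
      (hY₁'r.split w hw y hy).trans (up2 (apply_nonneg _ _))⟩
  · intro z hz x hx
    have hz' : z ∈ (F ⊔ Y) ⊔ Y' := (le_sup_of_le_left (sup_le_sup_left hY₁ F)) hz
    exact ⟨(hE'p.split z hz' x (hE''E' hx)).trans (up1 (apply_nonneg _ _)),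
      (hE'r.split z hz' x (hE''E' hx)).trans (up1 (apply_nonneg _ _))⟩
  · intro z hz x hx
    have hz' : z ∈ (F ⊔ Y) ⊔ Y' := (sup_le (le_sup_of_le_left le_sup_left) (hY₁'.trans le_sup_right)) hz
    exact ⟨(hE'p.split z hz' x (hE''E' hx)).trans (up1 (apply_nonneg _ _)),
      (hE'r.split z hz' x (hE''E' hx)).trans (up1 (apply_nonneg _ _))⟩
  · refine le_trans ?_ (h1 y (hY₁ hy))
    exact mul_le_mul_of_nonneg_right (mul_le_mul_of_nonneg_right k3 hs.le) (apply_nonneg _ _)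

end Pool.HP
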