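import Pool.Agent.Work.MP_3e8c7a_hp.Interface
import Pool.Agent.Work.MP_3e8c7a_h.B_PO1

/-! # Block PO1P (helper71): good position with polynomial constants -/

set_option autoImplicit false

namespace Pool.HP

open Module Pool.Agent.MP3e8c7a Pool.EH

theorem PO1P_poly (η τ : ℝ) : PB fun D => 2 / η + (6 / η) * ((32 / τ) * D + 1) + (32 / τ) * D := by
  have h1 : PB fun D => (32 / τ) * D := (PB.const (32 / τ)).mul PB.id (fun D hD => by linarith)
  have h1' : PB fun D => max ((32 / τ) * D + 1) 0 := (h1.add (PB.const 1)).max (PB.const 0)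
  have h2 : PB fun D => (6 / η) * max ((32 / τ) * D + 1) 0 :=
    (PB.const (6 / η)).mul h1' (fun D _ => le_max_right _ _)
  have h3 : PB fun D => max (6 / η) 0 * max ((32 / τ) * D + 1) 0 :=
    (PB.const (max (6 / η) 0)).mul h1' (fun D _ => le_max_right _ _)
  have h4 : PB fun D => max (-(6 / η)) 0 * max (-((32 / τ) * D + 1)) 0 := by
    have h5 : PB fun D => max (-((32 / τ) * D + 1)) 0 := by
      have h6 : PB fun D => (-(32 / τ)) * D := (PB.const (-(32 / τ))).mul PB.id (fun D hD => by linarith)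
      have h7 := (h6.add (PB.const (-1))).max (PB.const 0)
      refine h7.mono (fun D _ => le_of_eq ?_)
      congr 1
      ring
    exact (PB.const (max (-(6 / η)) 0)).mul h5 (fun D _ => le_max_right _ _)
  have h8 := (((PB.const (2 / η)).add (h3.add h4)).add h1)
  refine h8.mono (fun D _ => ?_)
  have h9 : (6 / η) * ((32 / τ) * D + 1) ≤
      max (6 / η) 0 * max ((32 / τ) * D + 1) 0 + max (-(6 / η)) 0 * max (-((32 / τ) * D + 1)) 0 := by
    generalize 6 / η = a
    generalize (32 / τ) * D + 1 = b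
    rcases le_total 0 a with ha | ha
    · rcases le_total 0 b with hb | hb
      · rw [max_eq_left ha, max_eq_left hb]
        have : 0 ≤ max (-a) 0 * max (-b) 0 := mul_nonneg (le_max_right _ _) (le_max_right _ _)
        linarith
      · have : 0 ≤ max a 0 * max b 0 + max (-a) 0 * max (-b) 0 :=
          add_nonneg (mul_nonneg (le_max_right _ _) (le_max_right _ _))
            (mul_nonneg (le_max_right _ _) (le_max_right _ _))
        have h10 : a * b ≤ 0 := mul_nonpos_of_nonneg_of_nonpos ha hb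
        linarith
    · rcases le_total 0 b with hb | hb
      · have : 0 ≤ max a 0 * max b 0 + max (-a) 0 * max (-b) 0 :=
          add_nonneg (mul_nonneg (le_max_right _ _) (le_max_right _ _))
            (mul_nonneg (le_max_right _ _) (le_max_right _ _))
        have h10 : a * b ≤ 0 := mul_nonpos_of_nonpos_of_nonneg ha hb
        linarith
      · rw [max_eq_left (by linarith : (0:ℝ) ≤ -a), max_eq_left (by linarith : (0:ℝ) ≤ -b)]
        have : 0 ≤ max a 0 * max b 0 := mul_nonneg (le_max_right _ _) (le_max_right _ _)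
        nlinarith
  linarith

theorem p_PO1P (h1 : Pool.EH.Stmt_NET) (h2 : Pool.EH.Stmt_RND) : Stmt_PO1P := by
  intro η hη hη1
  have hκ : 1 ≤ 2 / η := by
    rw [le_div_iff₀ hη]
    linarith
  obtain ⟨τ, hτ, hτ1, hRND⟩ := h2 (2 / η) 2 hκ (by norm_num)
  obtain ⟨K, hK, hKD⟩ := PO1P_poly η τ
  refine ⟨K, hK, ?_⟩
  intro D hD V _ _ _ N hN E F hE hdim
  have hτ32 : 32 ≤ 32 / τ := by
    rw [le_div_iff₀ hτ]
    nlinarith
  have hC₂ : 32 ≤ 32 * D / τ := by
    have e : 32 * D / τ = 32 / τ * D := by ring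
    rw [e]
    nlinarith
  have hPw : 2 / η + 6 / η * (32 / τ * D + 1) + 32 / τ * D ≤ Pw K D := hKD D hD
  have e1 : 32 / τ * D = 32 * D / τ := by ring
  rw [e1] at hPw
  have h6η : 0 < 6 / η := by positivity
  have hκ0 : 0 < 2 / η := by positivity
  have hC₁Pw : 32 * D / τ ≤ Pw K D := by
    have : 0 ≤ 6 / η * (32 * D / τ + 1) := by
      apply mul_nonneg h6η.le
      linarith
    linarith
  have h2Pw : 2 / η ≤ Pw K D := by
    have : 0 ≤ 6 / η * (32 * D / τ + 1) := by
      apply mul_nonneg h6η.le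
      linarith
    linarith
  set j : ℕ := ⌈32 * D / τ⌉₊ with hjdef
  have hj1 : 32 * D / τ ≤ j := Nat.le_ceil _
  have hj2 : (j : ℝ) ≤ 32 * D / τ + 1 := (Nat.ceil_lt_add_one (by linarith)).le
  have hj3 : (j : ℝ) ≤ 2 ^ j := by
    have h : j ≤ 2 ^ j := Nat.lt_two_pow_self.le
    exact_mod_cast h
  have hj0 : (0 : ℝ) < j := by linarith
  have hjPw : 3 * (2 / η) * j ≤ Pw K D := by
    have h3 : 3 * (2 / η) * j = 6 / η * j := by ring
    rw [h3]
    have h4 : 6 / η * j ≤ 6 / η * (32 * D / τ + 1) := mul_le_mul_of_nonneg_left hj2 h6η.le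
    linarith
  by_cases hm : finrank ℝ F = 0
  · have hF : F = ⊥ := Submodule.finrank_eq_zero.1 hm
    refine ⟨E, le_rfl, ?_, ?_⟩
    · have : (0 : ℝ) ≤ finrank ℝ E := Nat.cast_nonneg _
      nlinarith
    · intro w hw x hx
      rw [hF, Submodule.mem_bot] at hw
      rw [hw, map_zero]
      exact mul_nonneg (by linarith) (apply_nonneg _ _)
  · have hm1 : (1 : ℝ) ≤ finrank ℝ F := by
      exact_mod_cast Nat.one_le_iff_ne_zero.2 hm
    set e : ℝ := (finrank ℝ E : ℝ) with he
    have he0 : 0 ≤ e := Nat.cast_nonneg _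
    have hPe : Pw K D ≤ e := by
      have h3 : 1 * Pw K D ≤ (finrank ℝ F : ℝ) * Pw K D :=
        mul_le_mul_of_nonneg_right hm1 (by linarith)
      linarith
    have h3 : 1 ≤ η / 2 * e := by
      have h4 : 2 / η ≤ e := h2Pw.trans hPe
      rw [div_le_iff₀ hη] at h4
      linarith
    have h4 : 2 ≤ η * e := by linarith
    have h5 : (⌊η * e⌋₊ : ℝ) ≤ η * e := Nat.floor_le (by linarith)
    have h6 : η * e < ⌊η * e⌋₊ + 1 := Nat.lt_floor_add_one _
    have h7 : η * e / 2 ≤ ⌊η * e⌋₊ := by linarith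
    have hc1 : 1 ≤ ⌊η * e⌋₊ := by
      have : (1 : ℝ) ≤ ⌊η * e⌋₊ := by linarith
      exact_mod_cast this
    have hec : e ≤ 2 / η * ⌊η * e⌋₊ := by
      calc e = 2 / η * (η * e / 2) := by field_simp
        _ ≤ 2 / η * ⌊η * e⌋₊ := by gcongr
    have hm3 : 3 * (j * finrank ℝ F) ≤ ⌊η * e⌋₊ := by
      have h8 : (3 : ℝ) * (j * finrank ℝ F) ≤ ⌊η * e⌋₊ := by
        have h9 : (finrank ℝ F : ℝ) * (3 * (2 / η) * j) ≤ e :=
          (mul_le_mul_of_nonneg_left hjPw (by linarith)).trans hdim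
        have h10 : (3 : ℝ) * (j * finrank ℝ F) = η / 2 * ((finrank ℝ F : ℝ) * (3 * (2 / η) * j)) := by
          field_simp
        rw [h10]
        have h11 : η / 2 * ((finrank ℝ F : ℝ) * (3 * (2 / η) * j)) ≤ η / 2 * e :=
          mul_le_mul_of_nonneg_left h9 (by linarith)
        linarith
      exact_mod_cast h8
    obtain ⟨E', hE', hfin, hpos⟩ := PO1_main h1 hτ hRND hD rfl (by linarith) (hj1.trans hj3) N hN E F hE
      hc1 hec hm3
    refine ⟨E', hE', ?_, ?_⟩
    · have h10 : (finrank ℝ E : ℝ) ≤ finrank ℝ E' + ⌊η * e⌋₊ := by exact_mod_cast hfin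
      rw [← he] at h10
      linarith
    · intro w hw x hx
      exact (hpos w hw x hx).trans (mul_le_mul_of_nonneg_right hC₁Pw (apply_nonneg _ _))

end Pool.HP
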