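import Pool.Agent.Work.MP_3e8c7a_hp.Poly

/-!
# MP_3e8c7a_an, THEOREM H with polynomial constants (H-POLY)

`Pw K D = (K * D) ^ K` (`Poly.lean`). Every block is the block of the same name (without the last letter `P`) of `MP_3e8c7a_h` (its file `MP_3e8c7a_h/B_X.lean` is finished and its docstring is in `MP_3e8c7a_h/Interface.lean`), with ONE real parameter `D ≥ 1` instead of `C, C₂, Λ, 1 / θ, ..` and the constants `R, C', C₁, 1 / θ, n₀` all replaced by `Pw K D`, where `K` depends only on the fixed numbers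
`α, β, ε, η, b`. So the work is: repeat (copy) the finished proof, keep the constants explicit, and bound them by `Pw K D`.

HOW TO FIND `K`. `PB f` means that `f` is bounded by `Pw K` for some `K`; closure lemmas: `PB.const`, `PB.id`, `PB.Pw`, `PB.add`, `PB.mul`, `PB.pow`, `PB.max`, `PB.mono`, `PB.comp` (`Pw L (f D)` if `1 ≤ f D`). Apply it to the sum of all constants one needs: then each of them is `≤ Pw K D`. Also `one_le_Pw`, `Pw_mono`, `le_Pw`, `Pw_mul`, `Pw_comp`.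

RULES. File `MP_3e8c7a_hp/B_X.lean`, `import Pool.Agent.Work.MP_3e8c7a_hp.Interface` (and the finished files `Pool.Agent.Work.MP_3e8c7a_h.B_Y` whose auxiliary lemmas you use), `namespace Pool.HP`, `open Module Pool.Agent.MP3e8c7a Pool.EH`, `theorem p_X (h1 : Stmt_Y) .. : Stmt_X` with exactly the blocks named after `uses` as hypotheses in that order (full names `Pool.EH.Stmt_..` where written); auxiliary
lemmas with the prefix `X_`. No straight double quotes.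
-/

set_option autoImplicit false

namespace Pool.HP

open Module Pool.Agent.MP3e8c7a Pool.EH

/-- **PO1P** (120; uses `Pool.EH.Stmt_NET`, `Pool.EH.Stmt_RND`). POSITION. `EH.PO1_main` in `MP_3e8c7a_h/B_PO1.lean` is explicit: `κ = 2 / η`, `τ` of RND for `κ`, `Γ = 2`, `C₁ = 32 D / τ`, `j = ⌈C₁⌉₊` (`C₁ ≤ j ≤ 2 ^ j`, `j ≤ C₁ + 1`), `1 / θ ≤ 2 / η + 9 κ j`. Continue as in `p_PO1` (same file). -/
def Stmt_PO1P : Prop := ∀ η : ℝ, 0 < η → η ≤ 1 → ∃ K : ℕ, 1 ≤ K ∧ ∀ D : ℝ, 1 ≤ D →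
  ∀ (V : Type) [AddCommGroup V] [Module ℝ V] [FiniteDimensional ℝ V] (N : Seminorm ℝ V), Def N → ∀ E F : Submodule ℝ V,
    Eu D (N.comp E.subtype) → (finrank ℝ F : ℝ) * Pw K D ≤ finrank ℝ E →
    ∃ E' : Submodule ℝ V, E' ≤ E ∧ (1 - η) * finrank ℝ E ≤ finrank ℝ E' ∧ Pos (Pw K D) N F E'

/-- **POSP** (70; uses PO1P). POSITION FOR TWO NORMS. As `B_POS.lean`: PO1P twice with `η / 2` (`finrank E₁ ≥ (1/2) finrank E`, so take `K' ` with `2 * Pw K D ≤ Pw K' D`). -/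
def Stmt_POSP : Prop := ∀ η : ℝ, 0 < η → η ≤ 1 → ∃ K : ℕ, 1 ≤ K ∧ ∀ D : ℝ, 1 ≤ D →
  ∀ (V : Type) [AddCommGroup V] [Module ℝ V] [FiniteDimensional ℝ V] (p r : Seminorm ℝ V), Def p → Def r → ∀ E F : Submodule ℝ V,
    Eu D (p.comp E.subtype) → Eu D (r.comp E.subtype) → (finrank ℝ F : ℝ) * Pw K D ≤ finrank ℝ E →
    ∃ E' : Submodule ℝ V, E' ≤ E ∧ (1 - η) * finrank ℝ E ≤ finrank ℝ E' ∧ Pos (Pw K D) p F E' ∧ Pos (Pw K D) r F E'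

/-- **SCLP** (80; uses `Pool.EH.Stmt_TYL`, `Pool.EH.Stmt_TYM`, `Pool.EH.Stmt_ORT`, `Pool.EH.Stmt_KWA`). CHANGE OF SCALE. Copy of `B_SCL.lean`: the constant is `D ^ (2 * (2 κ + 1)) + 1`. -/
def Stmt_SCLP : Prop := ∀ κ : ℕ, ∃ K : ℕ, 1 ≤ K ∧ ∀ D : ℝ, 1 ≤ D → ∀ (V : Type) [AddCommGroup V] [Module ℝ V] [FiniteDimensional ℝ V]
  (N : Seminorm ℝ V) (a : ℕ), Def N → 2 ≤ a → Loc D a N → Loc (Pw K D) (a ^ κ) N

/-- **LOBP** (180; uses nothing). SMALL DIMENSIONS, AUERBACH. Let `F` have dimension `m ≤ a`, `N` the norm on `F`. AUERBACH BASIS: among all `x : Fin m → F` with `N (x i) ≤ 1` take one with maximal `|det|` (coordinates in any basis; the unit ball is compact, `m ≥ 1`; the maximum is positive, so `x` is a basis). The coordinate functionals `f i` of this basis satisfy `|f i v| ≤ N v` (replace `x i` by `v / N v`: the determinant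 is multiplied by `f i v / N v`).
So `|f i v| ≤ N v ≤ ∑ |f i v|`. `T v = m ^ (-1/2) (f i v)_i` in `EuclideanSpace ℝ (Fin m)`: `‖T v‖ ≤ N v`, `N v ≤ ∑ |f i v| ≤ m ‖T v‖`, and `m ≤ a + 1`. (`m = 0` is trivial. A finished Auerbach lemma for seminorms on `Fin n → ℝ` is in `Pool/Agent/Work/MP_b10815_co_flt/KC.lean`, `auerbach`; its proof may be copied.) -/
def Stmt_LOBP : Prop := ∀ (a : ℕ) (V : Type) [AddCommGroup V] [Module ℝ V] [FiniteDimensional ℝ V] (N : Seminorm ℝ V), Def N → Loc ((a : ℝ) + 1) a N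

/-- **GAPP** (80; uses `Pool.EH.Stmt_TRF`). THE GAP LEMMA, `C = C₂ = D`. Copy of `p_GAP` (`B_GAP.lean`, its auxiliary lemmas may be imported): `K₁ = 2 b D D`, `K₂ = 2 K₁² D² D⁴`, `R = 2 K₂ D²`, `C' = K₁ (2 K₂ D + 1)`. -/
def Stmt_GAPP : Prop := ∀ b : ℝ, 1 ≤ b → ∃ K : ℕ, 1 ≤ K ∧ ∀ D : ℝ, 1 ≤ D →
  ∀ (V : Type) [AddCommGroup V] [Module ℝ V] [FiniteDimensional ℝ V] (p r : Seminorm ℝ V) (k : ℕ) (s : ℝ), Def p → Def r → Hyp b k p r →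
  ∀ F Y Y' E : Submodule ℝ V, finrank ℝ F ≤ finrank ℝ Y → finrank ℝ F ≤ finrank ℝ Y' → finrank ℝ F + finrank ℝ E = k →
  (∀ w ∈ F, ∀ y ∈ Y, p w + p y ≤ D * p (w + y) ∧ r w + r y ≤ D * r (w + y)) →
  (∀ w ∈ F, ∀ y ∈ Y', p w + p y ≤ D * p (w + y) ∧ r w + r y ≤ D * r (w + y)) →
  (∀ z ∈ F ⊔ Y, ∀ x ∈ E, p z + p x ≤ D * p (z + x) ∧ r z + r x ≤ D * r (z + x)) →
  (∀ z ∈ F ⊔ Y', ∀ x ∈ E, p z + p x ≤ D * p (z + x) ∧ r z + r x ≤ D * r (z + x)) →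
  Eu D (p.comp E.subtype) → Eu D (r.comp E.subtype) → Eu D (p.comp Y.subtype) → Eu D (r.comp Y.subtype) → Eu D (p.comp Y'.subtype) →
  0 < s → (∀ y ∈ Y, Pw K D * s * p y ≤ r y) → (∀ y ∈ Y', r y ≤ s * p y) →
  Eu (Pw K D) (p.comp F.subtype) ∧ Eu (Pw K D) (r.comp F.subtype)

/-- **SLFP** (80; uses `Pool.EH.Stmt_TRF`). THE SELF VERSION, `C = C₂ = Λ = D`. Copy of `p_SLF` (`B_SLF.lean`, its auxiliary lemmas may be imported): `K₁ = 2 b D D`, `K₃ = 2 D² K₁²`, `R = 2 K₃ D D`, `C' = K₁ * max (2 (K₃ D) + 1) 2`. -/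
def Stmt_SLFP : Prop := ∀ b : ℝ, 1 ≤ b → ∃ K : ℕ, 1 ≤ K ∧ ∀ D : ℝ, 1 ≤ D →
  ∀ (V : Type) [AddCommGroup V] [Module ℝ V] [FiniteDimensional ℝ V] (p r : Seminorm ℝ V) (k : ℕ), Def p → Def r → Hyp b k p r →
  ∀ G Y E : Submodule ℝ V, finrank ℝ G ≤ finrank ℝ Y → finrank ℝ G + finrank ℝ E = k →
  (∀ w ∈ G, ∀ y ∈ Y, p w + p y ≤ D * p (w + y) ∧ r w + r y ≤ D * r (w + y)) →
  (∀ z ∈ G ⊔ Y, ∀ x ∈ E, p z + p x ≤ D * p (z + x) ∧ r z + r x ≤ D * r (z + x)) →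
  Eu D (p.comp E.subtype) → Eu D (r.comp E.subtype) → Eu D (p.comp Y.subtype) →
  (∀ y ∈ Y, r y ≤ D * p y) → (∀ y ∈ G, Pw K D * p y ≤ r y) →
  Eu (Pw K D) (p.comp G.subtype) ∧ Eu (Pw K D) (r.comp G.subtype)

/-- **JOIP** (60; uses `Pool.EH.Stmt_LIF`). TWO NORMS, `C = Λ = D`. Copy of `p_JOI` (`B_JOI.lean`): the constant is `A * B`, `A = D (2 D + 3) + (2 D + 4)`, `B = D (2 D + 3) + D D (2 D + 4)`. -/
def Stmt_JOIP : Prop := ∃ K : ℕ, 1 ≤ K ∧ ∀ D : ℝ, 1 ≤ D → ∀ (V : Type) [AddCommGroup V] [Module ℝ V] [FiniteDimensional ℝ V]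
  (p r : Seminorm ℝ V) (n : ℕ) (X : Submodule ℝ V), Def p → Def r → finrank ℝ X + n = finrank ℝ V → Loc D (n * n + n + 1) p → Loc D (n * n + n + 1) r →
  (∀ x ∈ X, p x ≤ D * r x ∧ r x ≤ D * p x) → Iso (Pw K D) p r

/-- **LARP** (80; uses SCLP). LARGE SUBSPACES. `n = finrank V`, `n ≥ 2 D²` (`K` large), `a ≥ n / D ≥ 2`, `a ^ 3 ≥ (n / D) ^ 3 ≥ n` (`n² ≥ D³`). SCLP for `κ = 3`, `F = ⊤` (as in `B_LAR.lean`, `MAI_top` in `B_MAI.lean`). -/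
def Stmt_LARP : Prop := ∃ K : ℕ, 1 ≤ K ∧ ∀ D : ℝ, 1 ≤ D → ∀ (V : Type) [AddCommGroup V] [Module ℝ V] [FiniteDimensional ℝ V]
  (N : Seminorm ℝ V) (a : ℕ), Def N → Pw K D ≤ finrank ℝ V → (finrank ℝ V : ℝ) ≤ D * a → Loc D a N → Eu (Pw K D) N

/-- **STZP** (100; uses LARP). THE OTHER NORM IS EUCLIDEAN TOO. As `B_STZ.lean` (`STZ_super`, `STZ_iso` may be imported): `Loc (b D) k (r.comp E.subtype)`, LARP for `E` with `D' = b D + 1 / α` (`finrank E ≤ n ≤ k / α ≤ D' k`, `finrank E ≥ k ≥ α n ≥ α Pw K D ≥ Pw K₁ D'` for large `K`). -/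
def Stmt_STZP : Prop := ∀ α b : ℝ, 0 < α → 1 ≤ b → ∃ K : ℕ, 1 ≤ K ∧ ∀ D : ℝ, 1 ≤ D → ∀ (V : Type) [AddCommGroup V] [Module ℝ V] [FiniteDimensional ℝ V]
  (p r : Seminorm ℝ V) (k : ℕ) (E : Submodule ℝ V), Def p → Def r → Hyp b k p r → Pw K D ≤ finrank ℝ V → α * finrank ℝ V ≤ k → k ≤ finrank ℝ E →
  Eu D (p.comp E.subtype) → Eu (Pw K D) (r.comp E.subtype)

/-- **GPLP** (180; uses POSP GAPP). GAP WITH POSITIONS. As `B_GPL.lean` (`GPL_sub` may be imported): POSP for `η = β` (`K₁`) and `η = 1/2` (`K₂`), `C₂ = (2 Pw K₁ D + 1) + (2 Pw K₂ D + 1) + D`, GAPP for `D := C₂`. `3 μ ≤` and `finrank F ≤` conditions: `K` so large that `3 * Pw K₁ D / β ≤ Pw K D`, `2 * Pw K₂ D ≤ Pw K D`, `Pw K₃ C₂ ≤ Pw K D`. -/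
def Stmt_GPLP : Prop := ∀ β b : ℝ, 0 < β → β ≤ 1 → 1 ≤ b → ∃ K : ℕ, 1 ≤ K ∧ ∀ D : ℝ, 1 ≤ D →
  ∀ (V : Type) [AddCommGroup V] [Module ℝ V] [FiniteDimensional ℝ V] (p r : Seminorm ℝ V) (k μ : ℕ) (s : ℝ), Def p → Def r → Hyp b k p r →
  ∀ E Y Y' : Submodule ℝ V, k + β * finrank ℝ V ≤ finrank ℝ E → finrank ℝ Y = μ → finrank ℝ Y' = μ → (μ : ℝ) * Pw K D ≤ finrank ℝ V → μ ≤ k →
  Eu D (p.comp E.subtype) → Eu D (r.comp E.subtype) → Eu D (p.comp Y.subtype) → Eu D (r.comp Y.subtype) → Eu D (p.comp Y'.subtype) →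
  Eu D (r.comp Y'.subtype) → 0 < s → (∀ y ∈ Y, Pw K D * s * p y ≤ r y) → (∀ y ∈ Y', r y ≤ s * p y) →
  ∀ F : Submodule ℝ V, (finrank ℝ F : ℝ) * Pw K D ≤ μ → Eu (Pw K D) (p.comp F.subtype) ∧ Eu (Pw K D) (r.comp F.subtype)

/-- **SFLP** (180; uses POSP SLFP). SELF VERSION WITH POSITIONS, `C = Λ = D`. As `B_SFL.lean` (its auxiliary lemmas may be imported): POSP for `η = β` (`K₁`), `C₂ = (2 Pw K₁ D + 1) (2 D D² + 1) + D` or the constant of the file, SLFP for `D := C₂`. -/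
def Stmt_SFLP : Prop := ∀ β b : ℝ, 0 < β → β ≤ 1 → 1 ≤ b → ∃ K : ℕ, 1 ≤ K ∧ ∀ D : ℝ, 1 ≤ D →
  ∀ (V : Type) [AddCommGroup V] [Module ℝ V] [FiniteDimensional ℝ V] (p r : Seminorm ℝ V) (k : ℕ), Def p → Def r → Hyp b k p r →
  ∀ E G : Submodule ℝ V, k + β * finrank ℝ V ≤ finrank ℝ E → (finrank ℝ G : ℝ) * Pw K D ≤ finrank ℝ V → finrank ℝ G ≤ k →
  Eu D (p.comp E.subtype) → Eu D (r.comp E.subtype) → (∀ x ∈ E, p x ≤ D * r x ∧ r x ≤ D * p x) → (∀ y ∈ G, Pw K D * p y ≤ r y) →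
  Eu (Pw K D) (p.comp G.subtype) ∧ Eu (Pw K D) (r.comp G.subtype)

/-- **ONEP** (140; uses GPLP SFLP). ONE LARGE DEVIATION. As `B_ONE.lean`: SFLP (`K₁`), `C₁ = Pw K₁ D`; GPLP for `D := C₁` (`K₂`) with `Y = G`, `Y'` = a subspace of `E`, `s = D` (`p ≤ D r`, `r ≤ D p` on `E`): `R ≥ Pw K₂ C₁ * D`. -/
def Stmt_ONEP : Prop := ∀ β b : ℝ, 0 < β → β ≤ 1 → 1 ≤ b → ∃ K : ℕ, 1 ≤ K ∧ ∀ D : ℝ, 1 ≤ D →
  ∀ (V : Type) [AddCommGroup V] [Module ℝ V] [FiniteDimensional ℝ V] (p r : Seminorm ℝ V) (k : ℕ), Def p → Def r → Hyp b k p r →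
  ∀ E G : Submodule ℝ V, k + β * finrank ℝ V ≤ finrank ℝ E → (finrank ℝ G : ℝ) * Pw K D ≤ finrank ℝ V → finrank ℝ G ≤ k →
  Eu D (p.comp E.subtype) → Eu D (r.comp E.subtype) → (∀ x ∈ E, p x ≤ D * r x ∧ r x ≤ D * p x) →
  ((∀ y ∈ G, Pw K D * p y ≤ r y) ∨ ∀ y ∈ G, Pw K D * r y ≤ p y) →
  ∀ F : Submodule ℝ V, (finrank ℝ F : ℝ) * Pw K D ≤ finrank ℝ G → Eu (Pw K D) (p.comp F.subtype) ∧ Eu (Pw K D) (r.comp F.subtype)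

/-- **LOCP** (150; uses SCLP LOBP). FROM `m / D` TO `m²`. `A = (4 m + 2)² + (4 m + 2) + 1`. (a) `m ≥ 16 D²`: `a = ⌊m / D⌋₊`, `Loc D a N`; `√m ≥ 4 D`, so `m / D ≥ 4 √m`, `a ≥ 4 √m - 1 ≥ 2 √m` (`√m ≥ 4`), `a ^ 6 ≥ 64 m ^ 3 ≥ A`: SCLP for `κ = 6`, `Loc.mono`. (b) `m < 16 D²`: LOBP for `A` itself: `Loc (A + 1) A N`, `A + 1 ≤ (64 D² + 2)² + (64 D² + 2) + 2`, a polynomial. -/
def Stmt_LOCP : Prop := ∃ K : ℕ, 1 ≤ K ∧ ∀ D : ℝ, 1 ≤ D → ∀ (V : Type) [AddCommGroup V] [Module ℝ V] [FiniteDimensional ℝ V] (N : Seminorm ℝ V) (m : ℕ),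
  Def N → (∀ F : Submodule ℝ V, (finrank ℝ F : ℝ) * D ≤ m → Eu D (N.comp F.subtype)) → Loc (Pw K D) ((4 * m + 2) * (4 * m + 2) + (4 * m + 2) + 1) N

/-- **STPP** (240; uses `Pool.EH.Stmt_DET`, JOIP LARP ONEP LOCP). CASE B, `C = Λ = D`. As `p_STP` (`B_STP.lean`). ONEP: `K₁`, `D₁ = Pw K₁ D`. `α' = min 1 α`, `m₁ = ⌊α' n / (2 D₁)⌋₊` (`m₁ D₁ ≤ n`, `m₁ ≤ k`). `m` = the largest number `≤ m₁` such that some `G` of dimension `m` has `D₁ p ≤ r` on `G` or `D₁ r ≤ p` on `G` (`m = 0`: `⊥`). So all `F` with `finrank F * D₁ ≤ m` are `D₁`-Euclidean for `p`, `r`.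
(i) `m = m₁`: for `n ≥ Pw K D`: `m₁ ≥ α' n / (4 D₁)`, `a = ⌊m₁ / D₁⌋₊ ≥ α' n / (8 D₁²)`, so `n ≤ D₂ a`, `D₂ = 8 D₁² / α'`; LARP for `D₂`: `p`, `r` are `Pw K₂ D₂`-Euclidean, `Eu.iso`. (ii) `m < m₁`: no `G` of dimension `m + 1`: `∃ y ∈ G, r y < D₁ p y` and `∃ y ∈ G, p y < D₁ r y`. LOCP: `D₃ = Pw K₃ D₁`; DET (`C = D₃`, `ρ = D₁`; `2 m + 2 ≤ A`) for `(p, r)`, `(r, p)`:
`X = X₁ ⊓ X₂` of codimension `n' ≤ 4 m + 2`, `r ≤ D₄ p`, `p ≤ D₄ r` on `X`, `D₄ = 2 D₃⁴ D₁ ≥ D₃`. JOIP for `D₄`. -/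
def Stmt_STPP : Prop := ∀ α β b : ℝ, 0 < α → 0 < β → β ≤ 1 → 1 ≤ b → ∃ K : ℕ, 1 ≤ K ∧ ∀ D : ℝ, 1 ≤ D →
  ∀ (V : Type) [AddCommGroup V] [Module ℝ V] [FiniteDimensional ℝ V] (p r : Seminorm ℝ V) (k : ℕ), Def p → Def r → Hyp b k p r →
  Pw K D ≤ finrank ℝ V → α * finrank ℝ V ≤ k → ∀ E : Submodule ℝ V, k + β * finrank ℝ V ≤ finrank ℝ E →
  Eu D (p.comp E.subtype) → Eu D (r.comp E.subtype) → (∀ x ∈ E, p x ≤ D * r x ∧ r x ≤ D * p x) → Iso (Pw K D) p r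

/-- **MAIP** (220; uses LOBP LARP STZP GPLP STPP and `Pool.EH.Stmt_SPL`). THE MAIN THEOREM FOR NORMS. As `p_MAI` (`B_MAI.lean`; `MAI_sc`, `MAI_iso`, `MAI_def`, `MAI_hyp`, `MAI_eu`, `MAI_top` may be imported). `n = finrank V`. Small `n < Pw K' D`: LOBP: `Eu (n + 1)` for both (`Loc` for `⊤`), `Eu.iso`, `(n + 1)² ≤ (Pw K' D + 1)²`. Large `n`: STZP: `D₀ = Pw K₀ D ≥ D`; GPLP for `β = ε / 2`, `D₀`: `R = Pw K₁ D₀`.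
`μ = ⌊δ n⌋₊`, `δ = min (1 / R) (min (ε / 8) (α / 2))`; SPL with `C = D₀`, `R`. First alternative: GPLP: all `F` with `finrank F * R ≤ μ` are `R`-Euclidean for `p`, `r`; `a = ⌊μ / R⌋₊`, `n ≤ D₁ a` with `D₁ = 4 R / δ` (large `n`), LARP for `D₁`, `Eu.iso`. Second alternative: `r' = MAI_sc lam r`, `finrank E₁ ≥ k + (ε / 2) n`, closeness `R D₀⁴` on `E₁`: STPP for `β = ε / 2`, `D := R D₀⁴`: `Iso` for `p`, `r'`, hence for `p`, `r`. -/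
def Stmt_MAIP : Prop := ∀ α ε b : ℝ, 0 < α → 0 < ε → ε ≤ 1 → 1 ≤ b → ∃ K : ℕ, 1 ≤ K ∧ ∀ D : ℝ, 1 ≤ D →
  ∀ (V : Type) [AddCommGroup V] [Module ℝ V] [FiniteDimensional ℝ V] (p r : Seminorm ℝ V) (k : ℕ), Def p → Def r → Hyp b k p r →
  α * finrank ℝ V ≤ k → ∀ E : Submodule ℝ V, k + ε * finrank ℝ V ≤ finrank ℝ E → Eu D (p.comp E.subtype) → Iso (Pw K D) p r

end Pool.HP
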