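import Pool.Agent.Work.MP_3e8c7a_h.Interface

/-!
# MP_3e8c7a_an, THEOREM H with polynomial constants: `Pw K D = (K * D) ^ K`
-/

set_option autoImplicit false

namespace Pool.HP

/-- Polynomial constants. -/
noncomputable def Pw (K : ℕ) (D : ℝ) : ℝ := ((K : ℝ) * D) ^ K

lemma Pw_base {K : ℕ} {D : ℝ} (hK : 1 ≤ K) (hD : 1 ≤ D) : 1 ≤ (K : ℝ) * D := by
  have h : (1 : ℝ) ≤ K := by exact_mod_cast hK
  nlinarith

lemma one_le_Pw {K : ℕ} {D : ℝ} (hK : 1 ≤ K) (hD : 1 ≤ D) : 1 ≤ Pw K D :=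
  one_le_pow₀ (Pw_base hK hD)

lemma Pw_pos {K : ℕ} {D : ℝ} (hK : 1 ≤ K) (hD : 1 ≤ D) : 0 < Pw K D := by
  linarith [one_le_Pw hK hD]

lemma Pw_mono {K L : ℕ} {C D : ℝ} (hK : 1 ≤ K) (hKL : K ≤ L) (hC : 1 ≤ C) (hCD : C ≤ D) :
    Pw K C ≤ Pw L D := by
  have h0 : (K : ℝ) ≤ L := by exact_mod_cast hKL
  have h1 : (K : ℝ) * C ≤ L * D := mul_le_mul h0 hCD (by linarith) (Nat.cast_nonneg L)
  have h2 : 1 ≤ (K : ℝ) * C := Pw_base hK hC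
  calc Pw K C = ((K : ℝ) * C) ^ K := rfl
    _ ≤ ((L : ℝ) * D) ^ K := pow_le_pow_left₀ (by linarith) h1 K
    _ ≤ ((L : ℝ) * D) ^ L := pow_le_pow_right₀ (by linarith) hKL

lemma le_Pw {K : ℕ} {D : ℝ} (hK : 1 ≤ K) (hD : 1 ≤ D) : D ≤ Pw K D := by
  have h1 : Pw 1 D ≤ Pw K D := Pw_mono le_rfl hK hD le_rfl
  have h2 : Pw 1 D = D := by simp [Pw]
  linarith

lemma Pw_mul {K L : ℕ} {D : ℝ} (hK : 1 ≤ K) (hL : 1 ≤ L) (hD : 1 ≤ D) :
    Pw K D * Pw L D ≤ Pw (K + L) D := by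
  have hD0 : 0 < D := by linarith
  have hK0 : (0 : ℝ) ≤ K := Nat.cast_nonneg K
  have hL0 : (0 : ℝ) ≤ L := Nat.cast_nonneg L
  have h1 : ((K : ℝ) * D) ^ K ≤ (((K + L : ℕ) : ℝ) * D) ^ K := by
    refine pow_le_pow_left₀ (by positivity) ?_ K
    push_cast
    nlinarith
  have h2 : ((L : ℝ) * D) ^ L ≤ (((K + L : ℕ) : ℝ) * D) ^ L := by
    refine pow_le_pow_left₀ (by positivity) ?_ L
    push_cast
    nlinarith
  calc Pw K D * Pw L D ≤ (((K + L : ℕ) : ℝ) * D) ^ K * (((K + L : ℕ) : ℝ) * D) ^ L :=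
        mul_le_mul h1 h2 (Pw_pos hL hD).le (by positivity)
    _ = Pw (K + L) D := by rw [← pow_add]; rfl

lemma Pw_comp {K L : ℕ} {D : ℝ} (hK : 1 ≤ K) (hL : 1 ≤ L) (hD : 1 ≤ D) :
    Pw K (Pw L D) ≤ Pw (K * L + K) D := by
  have hD0 : 0 < D := by linarith
  have hK0 : (1 : ℝ) ≤ K := by exact_mod_cast hK
  have hL0 : (1 : ℝ) ≤ L := by exact_mod_cast hL
  set N : ℕ := K * L + K with hN
  have hNr : (N : ℝ) = K * L + K := by rw [hN]; push_cast; ring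
  have h1 : (K : ℝ) ≤ N * D := by rw [hNr]; nlinarith [mul_pos (by linarith : (0:ℝ) < K) (by linarith : (0:ℝ) < L)]
  have h2 : (L : ℝ) * D ≤ N * D := by
    refine mul_le_mul_of_nonneg_right ?_ (by linarith)
    rw [hNr]
    nlinarith
  calc Pw K (Pw L D) = ((K : ℝ) * ((L : ℝ) * D) ^ L) ^ K := rfl
    _ = (K : ℝ) ^ K * ((L : ℝ) * D) ^ (K * L) := by rw [mul_pow, ← pow_mul, mul_comm L K]
    _ ≤ (N * D) ^ K * (N * D) ^ (K * L) := by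
        refine mul_le_mul (pow_le_pow_left₀ (by linarith) h1 K) (pow_le_pow_left₀ (by positivity) h2 _)
          (by positivity) ?_
        have : 0 ≤ (N : ℝ) * D := by positivity
        positivity
    _ = Pw N D := by rw [← pow_add]; unfold Pw; congr 1; omega

/-- `f` is bounded by a polynomial. -/
def PB (f : ℝ → ℝ) : Prop := ∃ K : ℕ, 1 ≤ K ∧ ∀ D : ℝ, 1 ≤ D → f D ≤ Pw K D

lemma PB.mono {f g : ℝ → ℝ} (hg : PB g) (h : ∀ D, 1 ≤ D → f D ≤ g D) : PB f := by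
  obtain ⟨K, hK, h1⟩ := hg
  exact ⟨K, hK, fun D hD => (h D hD).trans (h1 D hD)⟩

lemma PB.const (c : ℝ) : PB fun _ => c := by
  obtain ⟨K, hK⟩ := exists_nat_ge (max c 1)
  have hK1 : 1 ≤ K := by exact_mod_cast (le_max_right c 1).trans hK
  refine ⟨K, hK1, fun D hD => ?_⟩
  have h1 : (K : ℝ) * D ≤ Pw K D := by
    calc (K : ℝ) * D = ((K : ℝ) * D) ^ 1 := (pow_one _).symm
      _ ≤ ((K : ℝ) * D) ^ K := pow_le_pow_right₀ (Pw_base hK1 hD) hK1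
  have h2 : (0 : ℝ) ≤ K := Nat.cast_nonneg K
  have h3 := (le_max_left c 1).trans hK
  nlinarith

lemma PB.id : PB fun D => D := ⟨1, le_rfl, fun _ hD => le_Pw le_rfl hD⟩

lemma PB.Pw {K : ℕ} (hK : 1 ≤ K) : PB fun D => HP.Pw K D := ⟨K, hK, fun _ _ => le_rfl⟩

lemma PB.add {f g : ℝ → ℝ} (hf : PB f) (hg : PB g) : PB fun D => f D + g D := by
  obtain ⟨K, hK, h1⟩ := hf
  obtain ⟨L, hL, h2⟩ := hg
  refine ⟨K + L + 2, by omega, fun D hD => ?_⟩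
  have h3 := one_le_Pw hK hD
  have h4 := one_le_Pw hL hD
  have h5 := Pw_mul hK hL hD
  have h6 := Pw_mul (show 1 ≤ K + L by omega) (show 1 ≤ 2 by norm_num) hD
  have h7 : 2 ≤ HP.Pw 2 D := by
    have : HP.Pw 2 D = (2 * D) ^ 2 := by simp [HP.Pw]
    rw [this]
    nlinarith
  have h8 : HP.Pw K D + HP.Pw L D ≤ 2 * (HP.Pw K D * HP.Pw L D) := by nlinarith
  have h9 := one_le_Pw (show 1 ≤ K + L by omega) hD
  calc f D + g D ≤ HP.Pw K D + HP.Pw L D := add_le_add (h1 D hD) (h2 D hD)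
    _ ≤ 2 * (HP.Pw K D * HP.Pw L D) := h8
    _ ≤ HP.Pw (K + L) D * HP.Pw 2 D := by nlinarith
    _ ≤ HP.Pw (K + L + 2) D := h6

lemma PB.mul {f g : ℝ → ℝ} (hf : PB f) (hg : PB g) (h0' : ∀ D, 1 ≤ D → 0 ≤ g D) : PB fun D => f D * g D := by
  obtain ⟨K, hK, h1⟩ := hf
  obtain ⟨L, hL, h2⟩ := hg
  refine ⟨K + L, by omega, fun D hD => ?_⟩
  exact (mul_le_mul (h1 D hD) (h2 D hD) (h0' D hD) (Pw_pos hK hD).le).trans (Pw_mul hK hL hD)

lemma PB.pow {f : ℝ → ℝ} (hf : PB f) (h0 : ∀ D, 1 ≤ D → 0 ≤ f D) (j : ℕ) : PB fun D => f D ^ j := by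
  induction j with
  | zero => simpa using PB.const 1
  | succ j ih =>
    have h := ih.mul hf h0
    simpa [pow_succ] using h

/-- Composition of polynomial constants. -/
lemma PB.comp {f : ℝ → ℝ} (hf : PB f) (h1 : ∀ D, 1 ≤ D → 1 ≤ f D) {L : ℕ} (hL : 1 ≤ L) :
    PB fun D => HP.Pw L (f D) := by
  obtain ⟨K, hK, h2⟩ := hf
  refine ⟨L * K + L, by omega, fun D hD => ?_⟩
  exact (Pw_mono hL le_rfl (h1 D hD) (h2 D hD)).trans (Pw_comp hL hK hD)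

lemma PB.max {f g : ℝ → ℝ} (hf : PB f) (hg : PB g) : PB fun D => Max.max (f D) (g D) := by
  obtain ⟨K, hK, h1⟩ := hf
  obtain ⟨L, hL, h2⟩ := hg
  refine ⟨K + L, by omega, fun D hD => max_le ?_ ?_⟩
  · exact (h1 D hD).trans (Pw_mono hK (by omega) hD le_rfl)
  · exact (h2 D hD).trans (Pw_mono hL (by omega) hD le_rfl)

end Pool.HP
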